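import Mathlib

/-!
# Parafree groups: definitions

`gam G n` is the `n`-th term of the lower central series, numbered from `0`:
`gam G 0 = G`, `gam G 1 = [G,G]`.
-/

open scoped commutatorElement

namespace PF

/-- the lower central series, `gam G 0 = ⊤`, `gam G (n+1) = ⁅gam G n, ⊤⁆` -/
abbrev gam (G : Type) [Group G] (n : ℕ) : Subgroup G :=
  (⊤ : Subgroup G).lowerCentralSeries n

/-- `G` is parafree: residually nilpotent, with the lower central quotients of a free group. -/
def IsParafree (G : Type) [Group G] : Prop :=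
  (⨅ n : ℕ, gam G n) = ⊥ ∧
  ∃ X : Type, ∀ n : ℕ, Nonempty ((G ⧸ gam G n) ≃* (FreeGroup X ⧸ gam (FreeGroup X) n))

/-- `ℚ/ℤ` -/
abbrev QZ : Type := AddCircle (1 : ℚ)

variable {G : Type} [Group G]

/-- 2-cocycles with values in `ℚ/ℤ`, trivial action -/
def IsCoc (f : G → G → QZ) : Prop :=
  ∀ g h j : G, f h j + f g (h * j) = f (g * h) j + f g h

/-- 2-coboundaries -/
def IsCob (f : G → G → QZ) : Prop :=
  ∃ b : G → QZ, ∀ g h : G, f g h = b g + b h - b (g * h)

/-- a central chain of generators: `t 0, t 1, ..., t (l-1)` generate `Q`, and each `⁅t i, q⁆`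
lies in the subgroup generated by the previous ones -/
def IsChain (Q : Type) [Group Q] (l : ℕ) (t : ℕ → Q) : Prop :=
  Subgroup.closure (t '' {j | j < l}) = ⊤ ∧
  ∀ i < l, ∀ q : Q, ⁅t i, q⁆ ∈ Subgroup.closure (t '' {j | j < i})

end PF
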