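import Pool.Agent.PF.Defs

open scoped commutatorElement

namespace PF

/-- the submodule generated by all `(q-1)m`, `q ∈ Q`, `m ∈ L` -/
noncomputable def aug {Q : Type} [Group Q] {M : Type} [AddCommGroup M] [Module (MonoidAlgebra ℤ Q) M]
    (L : Submodule (MonoidAlgebra ℤ Q) M) : Submodule (MonoidAlgebra ℤ Q) M :=
  Submodule.span (MonoidAlgebra ℤ Q)
    {x | ∃ q : Q, ∃ m ∈ L, x = (MonoidAlgebra.of ℤ Q q) • m - m}

section AR

variable {Q : Type} [Group Q] {M : Type} [AddCommGroup M] [Module (MonoidAlgebra ℤ Q) M]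
  {N : Type} [AddCommGroup N] [Module (MonoidAlgebra ℤ Q) N]

private theorem aug_mono {L L' : Submodule (MonoidAlgebra ℤ Q) M} (h : L ≤ L') :
    aug L ≤ aug L' := by
  apply Submodule.span_mono
  rintro x ⟨q, m, hm, rfl⟩
  exact ⟨q, m, h hm, rfl⟩

private theorem aug_iter_mono {L L' : Submodule (MonoidAlgebra ℤ Q) M} (h : L ≤ L') (j : ℕ) :
    (aug (Q := Q) (M := M))^[j] L ≤ (aug (Q := Q) (M := M))^[j] L' := by
  induction j with
  | zero => exact h
  | succ j ih =>
    rw [Function.iterate_succ_apply', Function.iterate_succ_apply']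
    exact aug_mono ih

private theorem aug_map (f : M →ₗ[MonoidAlgebra ℤ Q] N) (L : Submodule (MonoidAlgebra ℤ Q) M) :
    aug (L.map f) = (aug L).map f := by
  unfold aug
  rw [Submodule.map_span]
  congr 1
  ext x
  constructor
  · rintro ⟨q, m, ⟨y, hy, rfl⟩, rfl⟩
    exact ⟨_, ⟨q, y, hy, rfl⟩, by rw [map_sub, map_smul]⟩
  · rintro ⟨_, ⟨q, m, hm, rfl⟩, rfl⟩
    exact ⟨q, f m, ⟨m, hm, rfl⟩, by rw [map_sub, map_smul]⟩

private theorem aug_iter_map (f : M →ₗ[MonoidAlgebra ℤ Q] N)
    (L : Submodule (MonoidAlgebra ℤ Q) M) (j : ℕ) :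
    (aug (Q := Q) (M := N))^[j] (L.map f) = ((aug (Q := Q) (M := M))^[j] L).map f := by
  induction j with
  | zero => rfl
  | succ j ih => rw [Function.iterate_succ_apply', Function.iterate_succ_apply', ih, aug_map]

/-- the elements acting trivially form a subgroup -/
private theorem triv_closure (S : Set Q) (hS : ∀ q ∈ S, ∀ m : M, MonoidAlgebra.of ℤ Q q • m = m) :
    ∀ q ∈ Subgroup.closure S, ∀ m : M, MonoidAlgebra.of ℤ Q q • m = m := by
  intro q hq
  induction hq using Subgroup.closure_induction with
  | mem x hx => exact hS x hx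
  | one => intro m; rw [map_one, one_smul]
  | mul x y _ _ hx hy => intro m; rw [map_mul, mul_smul, hy, hx]
  | inv x _ hx =>
    intro m
    conv_lhs => rw [← hx m]
    rw [← mul_smul, ← map_mul, inv_mul_cancel, map_one, one_smul]

/-- multiplication by `t - 1`, when all `⁅t, q⁆` act trivially -/
private noncomputable def zed (t : Q)
    (hc : ∀ (q : Q) (m : M), MonoidAlgebra.of ℤ Q ⁅t, q⁆ • m = m) :
    M →ₗ[MonoidAlgebra ℤ Q] M where
  toFun m := MonoidAlgebra.of ℤ Q t • m - m
  map_add' x y := by rw [smul_add]; abel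
  map_smul' r m := by
    simp only [RingHom.id_apply]
    induction r using MonoidAlgebra.induction_on generalizing m with
    | of q =>
      have h1 : t * q = ⁅t, q⁆ * (q * t) := by
        rw [commutatorElement_def]; group
      rw [smul_sub, ← mul_smul, ← mul_smul, ← map_mul, ← map_mul, h1, map_mul, mul_smul,
        hc]
    | add f g hf hg =>
      rw [add_smul, smul_add, add_smul, ← hf, ← hg]; abel
    | smul n f hf =>
      rw [smul_assoc, smul_comm, smul_assoc, ← hf, smul_sub]

private theorem zed_apply (t : Q)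
    (hc : ∀ (q : Q) (m : M), MonoidAlgebra.of ℤ Q ⁅t, q⁆ • m = m) (m : M) :
    zed t hc m = MonoidAlgebra.of ℤ Q t • m - m := rfl

end AR

/-- the nilpotency of the augmentation ideal on a module with an essential trivial submodule -/
private theorem claim (Q : Type) [Group Q] (l : ℕ) (t : ℕ → Q) (h : IsChain Q l t) (n : ℕ) :
    n ≤ l → ∀ (N : Type) [AddCommGroup N] [Module (MonoidAlgebra ℤ Q) N]
    [IsNoetherian (MonoidAlgebra ℤ Q) N],
    (∀ j < l - n, ∀ m : N, MonoidAlgebra.of ℤ Q (t j) • m = m) →
    ∀ L : Submodule (MonoidAlgebra ℤ Q) N, (∀ q : Q, ∀ m ∈ L, MonoidAlgebra.of ℤ Q q • m = m) →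
    (∀ D : Submodule (MonoidAlgebra ℤ Q) N, D ⊓ L = ⊥ → D = ⊥) →
    ∃ j : ℕ, (aug (Q := Q) (M := N))^[j] ⊤ = ⊥ := by
  induction n with
  | zero =>
    intro _ N _ _ _ ht L _ _
    refine ⟨1, ?_⟩
    have h1 : ∀ q : Q, ∀ m : N, MonoidAlgebra.of ℤ Q q • m = m := by
      intro q
      have hq : q ∈ Subgroup.closure (t '' {j | j < l}) := by rw [h.1]; trivial
      refine triv_closure (M := N) (t '' {j | j < l}) ?_ q hq
      rintro _ ⟨j, hj, rfl⟩
      exact ht j (by simpa using hj)
    rw [Function.iterate_one, aug, Submodule.span_eq_bot]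
    rintro x ⟨q, m, _, rfl⟩
    rw [h1, sub_self]
  | succ n ih =>
    intro hn N _ _ _ ht L hL hess
    -- the inner induction
    have inner : ∀ k : ℕ, ∀ (N : Type) [AddCommGroup N] [Module (MonoidAlgebra ℤ Q) N]
        [IsNoetherian (MonoidAlgebra ℤ Q) N],
        (∀ j < l - (n + 1), ∀ m : N, MonoidAlgebra.of ℤ Q (t j) • m = m) →
        ∀ hc : (∀ (q : Q) (m : N), MonoidAlgebra.of ℤ Q ⁅t (l - (n + 1)), q⁆ • m = m),
        ∀ L : Submodule (MonoidAlgebra ℤ Q) N,
        (∀ q : Q, ∀ m ∈ L, MonoidAlgebra.of ℤ Q q • m = m) →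
        (∀ D : Submodule (MonoidAlgebra ℤ Q) N, D ⊓ L = ⊥ → D = ⊥) →
        (∀ m : N, ((zed (t (l - (n + 1))) hc) ^ k) m = 0) →
        ∃ j : ℕ, (aug (Q := Q) (M := N))^[j] ⊤ = ⊥ := by
      intro k
      induction k with
      | zero =>
        intro N _ _ _ _ hc L _ _ hz
        refine ⟨0, ?_⟩
        rw [Function.iterate_zero, id, eq_bot_iff]
        intro x _
        rw [Submodule.mem_bot]
        simpa using hz x
      | succ k ihk =>
        intro N _ _ _ ht hc L hL hess hz
        set z := zed (t (l - (n + 1))) hc with hzdef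
        -- the kernel
        have hN1 : ∃ j : ℕ, (aug (Q := Q) (M := LinearMap.ker z))^[j] ⊤ = ⊥ := by
          refine ih (by omega) (LinearMap.ker z) ?_ (L.comap (LinearMap.ker z).subtype) ?_ ?_
          · intro j hj m
            rcases Nat.lt_or_ge j (l - (n + 1)) with h1 | h1
            · exact Subtype.ext (ht j h1 m.1)
            · have h2 : j = l - (n + 1) := by omega
              subst h2
              apply Subtype.ext
              have h3 : z m.1 = 0 := LinearMap.mem_ker.mp m.2
              have h3' : MonoidAlgebra.of ℤ Q (t (l - (n + 1))) • m.1 - m.1 = 0 := h3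
              exact sub_eq_zero.mp h3'
          · intro q m hm
            exact Subtype.ext (hL q m.1 hm)
          · intro D hD
            have h1 : D.map (LinearMap.ker z).subtype ⊓ L = ⊥ := by
              rw [eq_bot_iff]
              rintro x ⟨⟨y, hy, rfl⟩, hx⟩
              have h2 : y ∈ D ⊓ L.comap (LinearMap.ker z).subtype := ⟨hy, hx⟩
              rw [hD, Submodule.mem_bot] at h2
              rw [h2, map_zero]
              exact Submodule.zero_mem _
            have h3 := hess _ h1
            rw [eq_bot_iff]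
            intro x hx
            have h4 : (LinearMap.ker z).subtype x ∈ D.map (LinearMap.ker z).subtype :=
              Submodule.mem_map_of_mem hx
            rw [h3, Submodule.mem_bot] at h4
            rw [Submodule.mem_bot]
            exact Subtype.ext h4
        -- the range
        have hN2 : ∃ j : ℕ, (aug (Q := Q) (M := LinearMap.range z))^[j] ⊤ = ⊥ := by
          have hc2 : ∀ (q : Q) (m : LinearMap.range z),
              MonoidAlgebra.of ℤ Q ⁅t (l - (n + 1)), q⁆ • m = m := fun q m =>
            Subtype.ext (hc q m.1)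
          refine ihk (LinearMap.range z) ?_ hc2 (L.comap (LinearMap.range z).subtype) ?_ ?_ ?_
          · intro j hj m
            exact Subtype.ext (ht j hj m.1)
          · intro q m hm
            exact Subtype.ext (hL q m.1 hm)
          · intro D hD
            have h1 : D.map (LinearMap.range z).subtype ⊓ L = ⊥ := by
              rw [eq_bot_iff]
              rintro x ⟨⟨y, hy, rfl⟩, hx⟩
              have h2 : y ∈ D ⊓ L.comap (LinearMap.range z).subtype := ⟨hy, hx⟩
              rw [hD, Submodule.mem_bot] at h2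
              rw [h2, map_zero]
              exact Submodule.zero_mem _
            have h3 := hess _ h1
            rw [eq_bot_iff]
            intro x hx
            have h4 : (LinearMap.range z).subtype x ∈ D.map (LinearMap.range z).subtype :=
              Submodule.mem_map_of_mem hx
            rw [h3, Submodule.mem_bot] at h4
            rw [Submodule.mem_bot]
            exact Subtype.ext h4
          · rintro ⟨m, y, rfl⟩
            have h5 : ∀ (k : ℕ) (m : LinearMap.range z),
                (((zed (t (l - (n + 1))) hc2) ^ k) m).1 = (z ^ k) m.1 := by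
              intro k
              induction k with
              | zero => intro m; rfl
              | succ k ih2 =>
                intro m
                rw [pow_succ, pow_succ, Module.End.mul_apply, Module.End.mul_apply, ih2]
                rfl
            apply Subtype.ext
            rw [h5]
            have h6 := hz y
            rw [pow_succ, Module.End.mul_apply] at h6
            exact h6
        obtain ⟨j1, hj1⟩ := hN1
        obtain ⟨j2, hj2⟩ := hN2
        refine ⟨j1 + j2, ?_⟩
        have h1 : (aug (Q := Q) (M := N))^[j2] ⊤ ≤ LinearMap.ker z := by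
          have h2 := aug_iter_map z.rangeRestrict (⊤ : Submodule (MonoidAlgebra ℤ Q) N) j2
          rw [Submodule.map_top, LinearMap.range_rangeRestrict, hj2] at h2
          intro x hx
          have h3 : z.rangeRestrict x ∈ ((aug (Q := Q) (M := N))^[j2] ⊤).map z.rangeRestrict :=
            Submodule.mem_map_of_mem hx
          rw [← h2, Submodule.mem_bot] at h3
          rw [LinearMap.mem_ker]
          exact congrArg Subtype.val h3
        have h4 : (aug (Q := Q) (M := N))^[j1] (LinearMap.ker z) = ⊥ := by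
          have h5 := aug_iter_map (LinearMap.ker z).subtype
            (⊤ : Submodule (MonoidAlgebra ℤ Q) (LinearMap.ker z)) j1
          rw [Submodule.map_top, Submodule.range_subtype, hj1, Submodule.map_bot] at h5
          exact h5
        rw [Function.iterate_add_apply, eq_bot_iff, ← h4]
        exact aug_iter_mono h1 j1
    have hc : ∀ (q : Q) (m : N), MonoidAlgebra.of ℤ Q ⁅t (l - (n + 1)), q⁆ • m = m := by
      intro q
      refine triv_closure (M := N) (t '' {j | j < l - (n + 1)}) ?_ _
        (h.2 (l - (n + 1)) (by omega) q)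
      rintro _ ⟨j, hj, rfl⟩
      exact ht j hj
    obtain ⟨k, hk0, hk⟩ : ∃ k : ℕ, 1 ≤ k ∧ Disjoint (LinearMap.ker ((zed (t (l - (n + 1))) hc) ^ k))
        (LinearMap.range ((zed (t (l - (n + 1))) hc) ^ k)) := by
      have h1 := (Module.End.eventually_disjoint_ker_pow_range_pow (zed (t (l - (n + 1))) hc))
      obtain ⟨k, hk1, hk2⟩ := (h1.and (Filter.eventually_ge_atTop 1)).exists
      exact ⟨k, hk2, hk1⟩
    refine inner k N ht hc L hL hess ?_
    have hLk : L ≤ LinearMap.ker ((zed (t (l - (n + 1))) hc) ^ k) := by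
      intro x hx
      obtain ⟨k', rfl⟩ := Nat.exists_eq_add_of_le hk0
      have h4 : zed (t (l - (n + 1))) hc x = 0 := by
        rw [zed_apply, hL _ x hx, sub_self]
      rw [LinearMap.mem_ker, pow_add, pow_one]
      have h5 : zed (t (l - (n + 1))) hc * (zed (t (l - (n + 1))) hc) ^ k'
          = (zed (t (l - (n + 1))) hc) ^ k' * zed (t (l - (n + 1))) hc :=
        (Commute.self_pow _ _).eq
      rw [h5, Module.End.mul_apply, h4, map_zero]
    have h2 : LinearMap.range ((zed (t (l - (n + 1))) hc) ^ k) = ⊥ := by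
      apply hess
      rw [← disjoint_iff]
      exact (hk.mono_left hLk).symm
    intro m
    have h3 : ((zed (t (l - (n + 1))) hc) ^ k) m ∈
        LinearMap.range ((zed (t (l - (n + 1))) hc) ^ k) := ⟨m, rfl⟩
    rw [h2, Submodule.mem_bot] at h3
    exact h3

/-- PF-14. A submodule of a noetherian module which lies in all `I^j M` satisfies `L = I L`
(`I` = augmentation ideal, `Q` finitely generated nilpotent). -/
theorem le_aug (Q : Type) [Group Q] (l : ℕ) (t : ℕ → Q) (h : IsChain Q l t)
    (M : Type) [AddCommGroup M] [Module (MonoidAlgebra ℤ Q) M]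
    [IsNoetherian (MonoidAlgebra ℤ Q) M] (L : Submodule (MonoidAlgebra ℤ Q) M)
    (hL : ∀ j : ℕ, L ≤ (aug (Q := Q) (M := M))^[j] ⊤) : L ≤ aug L := by
  -- a maximal submodule `C ≥ aug L` with `C ⊓ L ≤ aug L`
  have hne : ({C : Submodule (MonoidAlgebra ℤ Q) M | aug L ≤ C ∧ C ⊓ L ≤ aug L}).Nonempty :=
    ⟨aug L, le_rfl, inf_le_left⟩
  obtain ⟨C, ⟨hC1, hC2⟩, hmax⟩ :=
    (wellFounded_gt (α := Submodule (MonoidAlgebra ℤ Q) M)).has_min _ hne
  have hmap : ∀ j : ℕ, L.map C.mkQ ≤ (aug (Q := Q) (M := M ⧸ C))^[j] ⊤ := by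
    intro j
    have h1 := aug_iter_map C.mkQ (⊤ : Submodule (MonoidAlgebra ℤ Q) M) j
    rw [Submodule.map_top, Submodule.range_mkQ] at h1
    rw [h1]
    exact Submodule.map_mono (hL j)
  obtain ⟨j, hj⟩ := claim Q l t h l le_rfl (M ⧸ C) (by intro j hj; omega) (L.map C.mkQ)
    (by
      rintro q _ ⟨x, hx, rfl⟩
      rw [← map_smul, ← sub_eq_zero, ← map_sub, Submodule.mkQ_apply, Submodule.Quotient.mk_eq_zero]
      exact hC1 (Submodule.subset_span ⟨q, x, hx, rfl⟩))
    (by
      intro D hD
      have h1 : aug L ≤ D.comap C.mkQ := by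
        intro x hx
        rw [Submodule.mem_comap, Submodule.mkQ_apply,
          (Submodule.Quotient.mk_eq_zero C).mpr (hC1 hx)]
        exact Submodule.zero_mem _
      have h2 : D.comap C.mkQ ⊓ L ≤ aug L := by
        rintro x ⟨hx1, hx2⟩
        have h3 : C.mkQ x ∈ D ⊓ L.map C.mkQ := ⟨hx1, Submodule.mem_map_of_mem hx2⟩
        rw [hD, Submodule.mem_bot, Submodule.mkQ_apply, Submodule.Quotient.mk_eq_zero] at h3
        exact hC2 ⟨h3, hx2⟩
      have h3 : C ≤ D.comap C.mkQ := by
        intro x hx
        rw [Submodule.mem_comap, Submodule.mkQ_apply, (Submodule.Quotient.mk_eq_zero C).mpr hx]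
        exact Submodule.zero_mem _
      have h4 : D.comap C.mkQ = C := by
        by_contra h5
        exact hmax _ ⟨h1, h2⟩ (lt_of_le_of_ne h3 (Ne.symm h5))
      rw [eq_bot_iff]
      intro y hy
      obtain ⟨x, rfl⟩ := Submodule.mkQ_surjective C y
      have h5 : x ∈ D.comap C.mkQ := hy
      rw [h4] at h5
      rw [Submodule.mem_bot, Submodule.mkQ_apply, Submodule.Quotient.mk_eq_zero]
      exact h5)
  have h1 := hmap j
  rw [hj] at h1
  intro x hx
  refine hC2 ⟨?_, hx⟩
  have h2 := h1 (Submodule.mem_map_of_mem hx)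
  rw [Submodule.mem_bot, Submodule.mkQ_apply, Submodule.Quotient.mk_eq_zero] at h2
  exact h2

end PF
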