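import Pool.Agent.PF.Defs

open CategoryTheory groupHomology

namespace PF

theorem CZ.key (G : Type) [Group G]
    (h : ∀ f : G → G → QZ, IsCoc f → IsCob f) (z : cycles₂ (Rep.trivial ℤ G ℤ)) :
    z.1 ∈ boundaries₂ (Rep.trivial ℤ G ℤ) := by
  by_contra hz
  have hne : (Submodule.Quotient.mk z.1 :
      (G × G →₀ (Rep.trivial ℤ G ℤ)) ⧸ boundaries₂ (Rep.trivial ℤ G ℤ)) ≠ 0 := by
    rwa [Ne, Submodule.Quotient.mk_eq_zero]
  obtain ⟨c, hc⟩ := CharacterModule.exists_character_apply_ne_zero_of_ne_zero hne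
  let ψ : (G × G →₀ (Rep.trivial ℤ G ℤ)) →+ QZ :=
    AddMonoidHom.comp c (boundaries₂ (Rep.trivial ℤ G ℤ)).mkQ.toAddMonoidHom
  have hψb : ∀ x, x ∈ boundaries₂ (Rep.trivial ℤ G ℤ) → ψ x = 0 := by
    intro x hx
    show c ((boundaries₂ (Rep.trivial ℤ G ℤ)).mkQ x) = 0
    have : (boundaries₂ (Rep.trivial ℤ G ℤ)).mkQ x = 0 := by
      rw [Submodule.mkQ_apply]
      exact (Submodule.Quotient.mk_eq_zero _).2 hx
    rw [this]
    exact map_zero c
  let f : G → G → QZ := fun g k => ψ (Finsupp.single (g, k) (1 : ℤ))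
  have hcoc : IsCoc f := by
    intro g k j
    have h1 : ψ (d₃₂ (Rep.trivial ℤ G ℤ) (Finsupp.single (g, k, j) (1 : ℤ))) = 0 :=
      hψb _ (LinearMap.mem_range_self _ _)
    rw [d₃₂_single] at h1
    have h2 : ((Rep.trivial ℤ G ℤ).ρ (g, k, j).1⁻¹) (1 : ℤ) = (1 : ℤ) := rfl
    rw [h2, map_sub, map_add, map_sub] at h1
    have h3 : f k j - f (g * k) j + f g (k * j) - f g k = 0 := h1
    have h4 : f k j + f g (k * j) - (f (g * k) j + f g k) = 0 := by rw [← h3]; abel
    exact sub_eq_zero.1 h4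
  obtain ⟨b, hb⟩ := h f hcoc
  let B : (G →₀ (Rep.trivial ℤ G ℤ)) →+ QZ :=
    Finsupp.liftAddHom fun g => (zmultiplesHom QZ (b g) : ℤ →+ QZ)
  have hB : ∀ (g : G) (a : ℤ), B (Finsupp.single g a) = a • b g := by
    intro g a
    show (Finsupp.liftAddHom fun g => (zmultiplesHom QZ (b g) : ℤ →+ QZ)) (Finsupp.single g a) = _
    rw [Finsupp.liftAddHom_apply_single]
    rfl
  have hψ : ∀ x : (G × G →₀ (Rep.trivial ℤ G ℤ)), ψ x = B (d₂₁ (Rep.trivial ℤ G ℤ) x) := by
    intro x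
    induction x using Finsupp.induction_linear with
    | zero => simp
    | add x y hx hy => rw [map_add, hx, hy, map_add, map_add]
    | single q a =>
      obtain ⟨g, k⟩ := q
      rw [d₂₁_single]
      have h2 : ((Rep.trivial ℤ G ℤ).ρ (g, k).1⁻¹) a = a := rfl
      rw [h2, map_add, map_sub]
      have h5 : ψ (Finsupp.single (g, k) a) = (a : ℤ) • f g k := by
        have h6 : (Finsupp.single (g, k) a : G × G →₀ (Rep.trivial ℤ G ℤ))
            = (a : ℤ) • (Finsupp.single (g, k) (1 : ℤ) : G × G →₀ (Rep.trivial ℤ G ℤ)) := by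
          rw [Finsupp.smul_single]
          congr 1
          exact (mul_one (a : ℤ)).symm
        rw [h6, map_zsmul]
      rw [h5, hb]
      have e1 := hB k a
      have e2 := hB (g * k) a
      have e3 := hB g a
      rw [e1, e2, e3, smul_sub, smul_add]
      abel
  apply hc
  have h7 : ψ z.1 = 0 := by
    rw [hψ]
    have h8 : d₂₁ (Rep.trivial ℤ G ℤ) z.1 = 0 := z.2
    rw [h8, map_zero]
  exact h7

/-- PF-2. If every 2-cocycle with values in `ℚ/ℤ` is a coboundary, then `H_2(G;ℤ) = 0`. -/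
theorem isZero_H2 (G : Type) [Group G]
    (h : ∀ f : G → G → QZ, IsCoc f → IsCob f) :
    Limits.IsZero (groupHomology (Rep.trivial ℤ G ℤ) 2) := by
  have hs : Subsingleton (groupHomology (Rep.trivial ℤ G ℤ) 2) := by
    constructor
    have h0 : ∀ x : groupHomology (Rep.trivial ℤ G ℤ) 2, x = 0 := by
      intro x
      refine H2_induction_on x fun z => ?_
      exact (H2π_eq_zero_iff z).2 (CZ.key G h z)
    intro x y
    rw [h0 x, h0 y]
  exact ModuleCat.isZero_of_subsingleton _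

end PF
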