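import Pool.Agent.PF.GenComm

open scoped commutatorElement

namespace PF

/-- a surjective endomorphism of a finitely generated abelian group is injective -/
private theorem hopf_comm_aux (B : Type) [CommGroup B] [Group.FG B] (ψ : B →* B)
    (hψ : Function.Surjective ψ) : Function.Injective ψ := by
  have : AddGroup.FG (Additive B) := by infer_instance
  have : Module.Finite ℤ (Additive B) := by
    rw [Module.Finite.iff_addGroup_fg]; infer_instance
  have h : Function.Surjective (MonoidHom.toAdditive ψ).toIntLinearMap := by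
    intro y
    obtain ⟨x, hx⟩ := hψ (Additive.toMul y)
    exact ⟨Additive.ofMul x, congrArg Additive.ofMul hx⟩
  have h2 := OrzechProperty.injective_of_surjective_endomorphism _ h
  intro x y hxy
  have := @h2 (Additive.ofMul x) (Additive.ofMul y) (congrArg Additive.ofMul hxy)
  exact Additive.ofMul.injective this

/-- PF-10. Finitely generated nilpotent groups are Hopfian. -/
theorem hopf (n : ℕ) (Q : Type) [Group Q] [Group.FG Q] (hn : gam Q n = ⊥) (φ : Q →* Q)
    (hφ : Function.Surjective φ) : Function.Injective φ := by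
  induction n generalizing Q with
  | zero =>
    have h1 : (⊤ : Subgroup Q) = ⊥ := hn
    have h2 : ∀ x : Q, x = 1 := fun x => by
      have : x ∈ (⊤ : Subgroup Q) := Subgroup.mem_top x
      rwa [h1, Subgroup.mem_bot] at this
    intro x y _
    rw [h2 x, h2 y]
  | succ n ih =>
    set B : Subgroup Q := gam Q n with hB
    have hcomm : ∀ b ∈ B, ∀ q : Q, b * q = q * b := by
      intro b hb q
      have h1 : ⁅b, q⁆ ∈ gam Q (n + 1) :=
        Subgroup.commutator_mem_commutator hb (Subgroup.mem_top q)
      rw [hn, Subgroup.mem_bot] at h1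
      exact commutatorElement_eq_one_iff_mul_comm.1 h1
    obtain ⟨T, hTf, hTs, hT⟩ := gam_gen Q n
    rw [hn, sup_bot_eq] at hT
    have hBfg : B.FG := by
      rw [Subgroup.fg_iff]
      exact ⟨T, hT.symm, hTf⟩
    have hmap : B.map φ = B := by
      rw [hB]
      show Subgroup.map φ ((⊤ : Subgroup Q).lowerCentralSeries n) = _
      rw [Subgroup.map_lowerCentralSeries, Subgroup.map_top_of_surjective φ hφ]
    let _ : CommGroup B := { (inferInstance : Group B) with
      mul_comm := fun a b => Subtype.ext (hcomm a.1 a.2 b.1) }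
    have : Group.FG B := (Group.fg_iff_subgroup_fg B).2 hBfg
    have hmem : ∀ x : B, φ x.1 ∈ B := fun x =>
      hmap.le (Subgroup.mem_map_of_mem φ x.2)
    let ψ : B →* B := (φ.comp B.subtype).codRestrict B hmem
    have hψ : Function.Surjective ψ := by
      rintro ⟨y, hy⟩
      obtain ⟨x, hx, rfl⟩ := hmap.ge hy
      exact ⟨⟨x, hx⟩, rfl⟩
    have hψi := hopf_comm_aux B ψ hψ
    -- the quotient
    have : B.Normal := by rw [hB]; infer_instance
    have hle : B ≤ B.comap φ := fun x hx => hmem ⟨x, hx⟩
    let φq : (Q ⧸ B) →* (Q ⧸ B) := QuotientGroup.map B B φ hle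
    have hφq : Function.Surjective φq := by
      intro y
      obtain ⟨y, rfl⟩ := QuotientGroup.mk_surjective y
      obtain ⟨x, rfl⟩ := hφ y
      exact ⟨(x : Q ⧸ B), rfl⟩
    have hq0 : gam (Q ⧸ B) n = ⊥ := by
      have h1 : Subgroup.map (QuotientGroup.mk' B) (gam Q n) = gam (Q ⧸ B) n := by
        show Subgroup.map _ ((⊤ : Subgroup Q).lowerCentralSeries n) = _
        rw [Subgroup.map_lowerCentralSeries,
          Subgroup.map_top_of_surjective _ (QuotientGroup.mk'_surjective B)]
      rw [← h1, ← hB]
      rw [Subgroup.map_eq_bot_iff, QuotientGroup.ker_mk']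
    have : Group.FG (Q ⧸ B) := inferInstance
    have hφqi := ih (Q ⧸ B) hq0 φq hφq
    rw [injective_iff_map_eq_one]
    intro a ha
    have h1 : (a : Q ⧸ B) = 1 := by
      apply hφqi
      rw [map_one]
      show ((φ a : Q) : Q ⧸ B) = 1
      rw [ha]; rfl
    have haB : a ∈ B := (QuotientGroup.eq_one_iff a).1 h1
    have h2 : (⟨a, haB⟩ : B) = 1 := by
      apply hψi
      rw [map_one]
      exact Subtype.ext ha
    exact congrArg Subtype.val h2

end PF
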