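import Pool.Agent.PF.GenComm

open scoped commutatorElement

namespace PF

private theorem chain_step (Q : Type) [Group Q] [Group.FG Q] (m : ℕ) {l : ℕ} {t : ℕ → Q}
    (h1 : Subgroup.closure (t '' {j | j < l}) = gam Q (m + 1))
    (h2 : ∀ i < l, ∀ q : Q, ⁅t i, q⁆ ∈ Subgroup.closure (t '' {j | j < i})) :
    ∃ (l' : ℕ) (t' : ℕ → Q), Subgroup.closure (t' '' {j | j < l'}) = gam Q m ∧
      ∀ i < l', ∀ q : Q, ⁅t' i, q⁆ ∈ Subgroup.closure (t' '' {j | j < i}) := by
  obtain ⟨T, hT, hTm, hgen⟩ := gam_gen Q m
  obtain ⟨L, hL⟩ : ∃ L : List Q, ∀ x, x ∈ L ↔ x ∈ T :=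
    ⟨hT.toFinset.toList, fun x => by simp⟩
  let s : ℕ → Q := fun j => L.getD j 1
  have hs : s '' {j | j < L.length} = T := by
    ext x
    rw [← hL x]
    constructor
    · rintro ⟨j, hj, rfl⟩
      have hj' : j < L.length := hj
      show L.getD j 1 ∈ L
      rw [List.getD_eq_getElem _ _ hj']
      exact List.getElem_mem hj'
    · intro hx
      obtain ⟨j, hj, rfl⟩ := List.getElem_of_mem hx
      exact ⟨j, hj, List.getD_eq_getElem _ _ hj⟩
  let t' : ℕ → Q := fun j => if j < l then t j else s (j - l)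
  have hlow : ∀ j, j < l → t' j = t j := fun j hj => if_pos hj
  have hhigh : ∀ j, l ≤ j → t' j = s (j - l) := fun j hj => if_neg (not_lt.2 hj)
  have hpre : ∀ i, i ≤ l → t' '' {j | j < i} = t '' {j | j < i} := by
    intro i hi
    refine Set.image_congr fun j hj => hlow j (lt_of_lt_of_le hj hi)
  have himg : t' '' {j | j < l + L.length} = t '' {j | j < l} ∪ T := by
    ext x
    constructor
    · rintro ⟨j, hj, rfl⟩
      have hj' : j < l + L.length := hj
      by_cases hjl : j < l
      · left; rw [hlow j hjl]; exact ⟨j, hjl, rfl⟩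
      · right
        have hjl' : l ≤ j := not_lt.1 hjl
        rw [hhigh j hjl', ← hs]
        exact ⟨j - l, by show j - l < L.length; omega, rfl⟩
    · rintro (⟨j, hj, rfl⟩ | hx)
      · have hj' : j < l := hj
        exact ⟨j, by show j < l + L.length; omega, hlow j hj'⟩
      · rw [← hs] at hx
        obtain ⟨j, hj, rfl⟩ := hx
        have hj' : j < L.length := hj
        refine ⟨l + j, by show l + j < l + L.length; omega, ?_⟩
        rw [hhigh _ (Nat.le_add_right l j)]
        congr 1
        omega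
  refine ⟨l + L.length, t', ?_, ?_⟩
  · rw [himg, Subgroup.closure_union, h1, hgen, sup_comm]
  · intro i hi q
    by_cases hil : i < l
    · rw [hpre i hil.le, hlow i hil]
      exact h2 i hil q
    · have hil' : l ≤ i := not_lt.1 hil
      have hmem : t' i ∈ gam Q m := by
        apply hTm
        rw [hhigh i hil', ← hs]
        exact ⟨i - l, by show i - l < L.length; omega, rfl⟩
      have hc : ⁅t' i, q⁆ ∈ gam Q (m + 1) := by
        have h := Subgroup.commutator_mem_commutator hmem (Subgroup.mem_top q)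
        exact h
      rw [← h1] at hc
      refine Subgroup.closure_mono ?_ hc
      rw [← hpre l le_rfl]
      exact Set.image_mono fun j hj => lt_of_lt_of_le hj hil'

/-- PF-11. Finitely generated nilpotent groups have a central chain of generators. -/
theorem exists_chain (Q : Type) [Group Q] [Group.FG Q] (n : ℕ) (hn : gam Q n = ⊥) :
    ∃ (l : ℕ) (t : ℕ → Q), IsChain Q l t := by
  have key : ∀ k ≤ n, ∃ (l : ℕ) (t : ℕ → Q),
      Subgroup.closure (t '' {j | j < l}) = gam Q (n - k) ∧
      ∀ i < l, ∀ q : Q, ⁅t i, q⁆ ∈ Subgroup.closure (t '' {j | j < i}) := by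
    intro k
    induction k with
    | zero =>
      intro _
      refine ⟨0, fun _ => 1, ?_, fun i hi => absurd hi (Nat.not_lt_zero i)⟩
      rw [Nat.sub_zero, hn]
      simp
    | succ k ih =>
      intro hk
      obtain ⟨l, t, h1, h2⟩ := ih (by omega)
      have hnk : n - k = (n - (k + 1)) + 1 := by omega
      rw [hnk] at h1
      exact chain_step Q (n - (k + 1)) h1 h2
  obtain ⟨l, t, h1, h2⟩ := key n le_rfl
  refine ⟨l, t, ?_, h2⟩
  rw [h1, Nat.sub_self]
  rfl

end PF
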