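import Pool.Agent.PF.Defs

namespace PF

section conjMod
variable {H : Type} [Group H] (K : Subgroup H) [K.Normal]

/-- conjugation on the (additive) abelianization of a normal subgroup -/
private noncomputable def cmAct : H →* Module.End ℤ (Additive (Abelianization K)) where
  toFun g := (MonoidHom.toAdditive
    (Abelianization.map (MulAut.conjNormal (H := K) g).toMonoidHom)).toIntLinearMap
  map_one' := by
    ext x
    induction x with | ofMul x => ?_
    induction x using QuotientGroup.induction_on with | H x => ?_
    change Additive.ofMul (Abelianization.map _ (Abelianization.of x)) = _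
    rw [Abelianization.map_of]
    simp
    rfl
  map_mul' g h := by
    ext x
    induction x with | ofMul x => ?_
    induction x using QuotientGroup.induction_on with | H x => ?_
    change Additive.ofMul (Abelianization.map _ (Abelianization.of x)) =
      Additive.ofMul (Abelianization.map _ (Abelianization.map _ (Abelianization.of x)))
    rw [Abelianization.map_of, Abelianization.map_of, Abelianization.map_of]
    simp

private theorem cmAct_of (g : H) (x : K) :
    cmAct K g (Additive.ofMul (Abelianization.of x)) =
      Additive.ofMul (Abelianization.of (MulAut.conjNormal (H := K) g x)) := rfl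

private theorem cmAct_ker : K ≤ (cmAct K).ker := by
  intro k hk
  rw [MonoidHom.mem_ker]
  ext x
  induction x with | ofMul x => ?_
  induction x using QuotientGroup.induction_on with | H x => ?_
  change cmAct K k (Additive.ofMul (Abelianization.of x)) = Additive.ofMul (Abelianization.of x)
  rw [cmAct_of]
  congr 1
  have : MulAut.conjNormal (H := K) k x = ⟨k, hk⟩ * x * ⟨k, hk⟩⁻¹ := by
    ext; simp
  rw [this, map_mul, map_mul, map_inv, mul_comm, ← mul_assoc]
  simp

end conjMod

/-- PF-15. The abelianization of `gam H n` as a module over `ℤ[H/gam H n]` (conjugation). -/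
theorem exists_module (H : Type) [Group H] (n : ℕ) :
    ∃ (M : Type) (_ : AddCommGroup M) (_ : Module (MonoidAlgebra ℤ (H ⧸ gam H n)) M)
      (φ : gam H n → M), Function.Surjective φ ∧
      (∀ x y, φ (x * y) = φ x + φ y) ∧
      (∀ x : gam H n, φ x = 0 ↔ (x : H) ∈ ⁅gam H n, gam H n⁆) ∧
      (∀ (g : H) (x y : gam H n), (y : H) = g * x * g⁻¹ →
        φ y = (MonoidAlgebra.of ℤ (H ⧸ gam H n) (g : H ⧸ gam H n)) • φ x) := by
  let K : Subgroup H := gam H n
  have : K.Normal := inferInstanceAs (gam H n).Normal
  let ρ : (H ⧸ K) →* Module.End ℤ (Additive (Abelianization K)) :=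
    QuotientGroup.lift K (cmAct K) (cmAct_ker K)
  let R : MonoidAlgebra ℤ (H ⧸ K) →+* Module.End ℤ (Additive (Abelianization K)) :=
    (MonoidAlgebra.lift ℤ (Module.End ℤ (Additive (Abelianization K))) (H ⧸ K) ρ).toRingHom
  refine ⟨Additive (Abelianization K), inferInstance, Module.compHom _ R,
    fun x => Additive.ofMul (Abelianization.of x), ?_, ?_, ?_, ?_⟩
  · intro m
    induction m with | ofMul m => ?_
    induction m using QuotientGroup.induction_on with | H x => ?_
    exact ⟨x, rfl⟩
  · intro x y
    change Additive.ofMul (Abelianization.of (x * y)) =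
      Additive.ofMul (Abelianization.of x) + Additive.ofMul (Abelianization.of y)
    rw [map_mul, ofMul_mul]
  · intro x
    change Additive.ofMul (Abelianization.of x) = Additive.ofMul 1 ↔ _
    rw [Additive.ofMul.injective.eq_iff]
    rw [← MonoidHom.mem_ker, Abelianization.ker_of]
    have h1 : ⁅K, K⁆ = (commutator K).map K.subtype := by
      rw [commutator_def, Subgroup.map_commutator]
      simp [← MonoidHom.range_eq_map]
    change _ ↔ (x : H) ∈ ⁅K, K⁆
    rw [h1, Subgroup.mem_map]
    constructor
    · intro h
      exact ⟨x, h, rfl⟩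
    · rintro ⟨y, hy, hyx⟩
      have : y = x := Subtype.ext hyx
      rwa [← this]
  · intro g x y hy
    change Additive.ofMul (Abelianization.of y) =
      R (MonoidAlgebra.of ℤ (H ⧸ K) (g : H ⧸ K)) (Additive.ofMul (Abelianization.of x))
    have h2 : R (MonoidAlgebra.of ℤ (H ⧸ K) (g : H ⧸ K)) = cmAct K g := by
      change MonoidAlgebra.lift ℤ (Module.End ℤ (Additive (Abelianization K))) (H ⧸ K) ρ
        (MonoidAlgebra.of ℤ (H ⧸ K) (g : H ⧸ K)) = _
      rw [MonoidAlgebra.lift_of]
      rfl
    rw [h2, cmAct_of]
    congr 2
    ext
    simp [hy]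

end PF
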