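import Pool.Agent.PF.Skew

open scoped commutatorElement

namespace PF

private noncomputable def grR {Q : Type} [Group Q] (A : Subgroup Q) :
    Subring (MonoidAlgebra ℤ Q) :=
  (MonoidAlgebra.mapDomainRingHom ℤ A.subtype).range

private theorem grR_single {Q : Type} [Group Q] {A : Subgroup Q} {q : Q} (hq : q ∈ A) (z : ℤ) :
    (MonoidAlgebra.single q z : MonoidAlgebra ℤ Q) ∈ grR A :=
  ⟨MonoidAlgebra.single ⟨q, hq⟩ z, by simp⟩

private theorem grR_induction {Q : Type} [Group Q] {A : Subgroup Q}
    {P : MonoidAlgebra ℤ Q → Prop} (h0 : P 0) (hadd : ∀ x y, P x → P y → P (x + y))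
    (hs : ∀ q ∈ A, ∀ z : ℤ, P (MonoidAlgebra.single q z)) : ∀ x ∈ grR A, P x := by
  rintro _ ⟨f, rfl⟩
  induction f using MonoidAlgebra.induction_linear with
  | zero =>
    rw [map_zero]
    exact h0
  | add x y hx hy =>
    rw [map_add]
    exact hadd _ _ hx hy
  | single m r =>
    have h := hs m.1 m.2 r
    simpa using h

private theorem grR_mono {Q : Type} [Group Q] {A B : Subgroup Q} (h : A ≤ B) :
    grR A ≤ grR B := by
  intro x hx
  revert x
  exact grR_induction (Subring.zero_mem _) (fun x y hx hy => Subring.add_mem _ hx hy)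
    (fun q hq z => grR_single (h hq) z)

/-- finite sums `∑ t^i c_i` -/
private def grSum {S : Type} [Ring S] (R : Subring S) (t : S) (x : S) : Prop :=
  ∃ (k : ℕ) (c : ℕ → S), (∀ i, c i ∈ R) ∧ (∀ i, k ≤ i → c i = 0) ∧
    x = ∑ i ∈ Finset.range k, t ^ i * c i

private theorem grSum_extend {S : Type} [Ring S] {t : S} {k K : ℕ} {c : ℕ → S}
    (hk : ∀ i, k ≤ i → c i = 0) (hK : k ≤ K) :
    ∑ i ∈ Finset.range k, t ^ i * c i = ∑ i ∈ Finset.range K, t ^ i * c i := by
  refine Finset.sum_subset (Finset.range_mono hK) (fun i _ hi => ?_)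
  rw [hk i (by simpa using hi), mul_zero]

private theorem grSum_add {S : Type} [Ring S] {R : Subring S} {t x y : S}
    (hx : grSum R t x) (hy : grSum R t y) : grSum R t (x + y) := by
  obtain ⟨k, c, h1, h2, rfl⟩ := hx
  obtain ⟨l, d, h3, h4, rfl⟩ := hy
  refine ⟨max k l, fun i => c i + d i, fun i => Subring.add_mem _ (h1 i) (h3 i), ?_, ?_⟩
  · intro i hi
    simp only []
    rw [h2 i ((le_max_left _ _).trans hi), h4 i ((le_max_right _ _).trans hi), add_zero]
  · rw [grSum_extend h2 (le_max_left k l), grSum_extend h4 (le_max_right k l),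
      ← Finset.sum_add_distrib]
    exact Finset.sum_congr rfl fun i _ => (mul_add _ _ _).symm

private theorem grSum_mul {S : Type} [Ring S] {R : Subring S} {t x : S}
    (hx : grSum R t x) : grSum R t (t * x) := by
  obtain ⟨k, c, h1, h2, rfl⟩ := hx
  refine ⟨k + 1, fun i => if i = 0 then 0 else c (i - 1), ?_, ?_, ?_⟩
  · intro i
    simp only []
    split_ifs
    · exact Subring.zero_mem _
    · exact h1 _
  · intro i hi
    simp only []
    rw [if_neg (by omega), h2 _ (by omega)]
  · rw [Finset.sum_range_succ', Finset.mul_sum]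
    have e0 : t ^ 0 * (fun i => if i = 0 then (0 : S) else c (i - 1)) 0 = 0 := by simp
    rw [e0, add_zero]
    refine Finset.sum_congr rfl fun i _ => ?_
    have e1 : (fun i => if i = 0 then (0 : S) else c (i - 1)) (i + 1) = c i := by simp
    rw [e1, pow_succ', mul_assoc]

private theorem grSum_pow_mul {S : Type} [Ring S] {R : Subring S} {t x : S}
    (hx : grSum R t x) (n : ℕ) : grSum R t (t ^ n * x) := by
  induction n with
  | zero => simpa using hx
  | succ n ih =>
    rw [pow_succ', mul_assoc]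
    exact grSum_mul ih

private theorem grSum_mem {S : Type} [Ring S] {R : Subring S} {t x : S} (hx : x ∈ R) :
    grSum R t x := by
  refine ⟨1, fun i => if i = 0 then x else 0, ?_, ?_, by simp⟩
  · intro i
    simp only []
    split_ifs
    · exact hx
    · exact Subring.zero_mem _
  · intro i hi
    simp only []
    rw [if_neg (by omega)]

private theorem grR_step {Q : Type} [Group Q] {A B : Subgroup Q} (hAB : A ≤ B) (τ : Q)
    (hτ : τ ∈ B) (hc1 : ∀ a ∈ A, τ * a * τ⁻¹ ∈ A) (hc2 : ∀ a ∈ A, τ⁻¹ * a * τ ∈ A)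
    (hgen : ∀ b ∈ B, ∃ k : ℤ, ∃ a ∈ A, b = τ ^ k * a) (hA : IsNoetherianRing (grR A)) :
    IsNoetherianRing (grR B) := by
  let R : Subring (grR B) := (grR A).comap (grR B).subtype
  have hmono := grR_mono hAB
  let f : grR A →+* R :=
    { toFun := fun x => ⟨⟨x.1, hmono x.2⟩, x.2⟩
      map_one' := rfl
      map_mul' := fun _ _ => rfl
      map_zero' := rfl
      map_add' := fun _ _ => rfl }
  have hf : Function.Surjective f := by
    rintro ⟨⟨x, hx⟩, hx'⟩
    exact ⟨⟨x, hx'⟩, rfl⟩
  have hR : IsNoetherianRing R := isNoetherianRing_of_surjective _ _ f hf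
  let T : MonoidAlgebra ℤ Q := MonoidAlgebra.single τ 1
  let U : MonoidAlgebra ℤ Q := MonoidAlgebra.single τ⁻¹ 1
  have hT : T ∈ grR B := grR_single hτ 1
  have hU : U ∈ grR B := grR_single (B.inv_mem hτ) 1
  have hTU : T * U = 1 := by
    show MonoidAlgebra.single τ 1 * MonoidAlgebra.single τ⁻¹ 1 = (1 : MonoidAlgebra ℤ Q)
    rw [MonoidAlgebra.single_mul_single, mul_inv_cancel, mul_one, MonoidAlgebra.one_def]
  have hUT : U * T = 1 := by
    show MonoidAlgebra.single τ⁻¹ 1 * MonoidAlgebra.single τ 1 = (1 : MonoidAlgebra ℤ Q)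
    rw [MonoidAlgebra.single_mul_single, inv_mul_cancel, mul_one, MonoidAlgebra.one_def]
  have k1 : ∀ x ∈ grR A, T * x * U ∈ grR A := by
    refine grR_induction ?_ ?_ ?_
    · rw [mul_zero, zero_mul]
      exact Subring.zero_mem _
    · intro x y hx hy
      rw [mul_add, add_mul]
      exact Subring.add_mem _ hx hy
    · intro q hq z
      show MonoidAlgebra.single τ 1 * MonoidAlgebra.single q z * MonoidAlgebra.single τ⁻¹ 1 ∈ grR A
      rw [MonoidAlgebra.single_mul_single, MonoidAlgebra.single_mul_single]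
      exact grR_single (hc1 q hq) _
  have k2 : ∀ x ∈ grR A, U * x * T ∈ grR A := by
    refine grR_induction ?_ ?_ ?_
    · rw [mul_zero, zero_mul]
      exact Subring.zero_mem _
    · intro x y hx hy
      rw [mul_add, add_mul]
      exact Subring.add_mem _ hx hy
    · intro q hq z
      show MonoidAlgebra.single τ⁻¹ 1 * MonoidAlgebra.single q z * MonoidAlgebra.single τ 1 ∈ grR A
      rw [MonoidAlgebra.single_mul_single, MonoidAlgebra.single_mul_single]
      exact grR_single (hc2 q hq) _
  have hTn : ∀ n : ℕ, T ^ n = MonoidAlgebra.single (τ ^ n) 1 := by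
    intro n
    show (MonoidAlgebra.single τ 1) ^ n = (MonoidAlgebra.single (τ ^ n) 1 : MonoidAlgebra ℤ Q)
    rw [MonoidAlgebra.single_pow, one_pow]
  have k3 : ∀ x ∈ grR B, ∃ n : ℕ, grSum (grR A) T (T ^ n * x) := by
    refine grR_induction ?_ ?_ ?_
    · refine ⟨0, ?_⟩
      rw [mul_zero]
      exact grSum_mem (Subring.zero_mem _)
    · rintro x y ⟨n, hx⟩ ⟨m, hy⟩
      refine ⟨n + m, ?_⟩
      have e : T ^ (n + m) * (x + y) = T ^ m * (T ^ n * x) + T ^ n * (T ^ m * y) := by
        rw [mul_add, ← mul_assoc, ← mul_assoc, ← pow_add, ← pow_add, add_comm m n]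
      rw [e]
      exact grSum_add (grSum_pow_mul hx m) (grSum_pow_mul hy n)
    · intro q hq z
      obtain ⟨k, a, ha, rfl⟩ := hgen q hq
      obtain ⟨m, hm | hm⟩ := Int.eq_nat_or_neg k
      · refine ⟨0, ?_⟩
        have e : T ^ 0 * MonoidAlgebra.single (τ ^ k * a) z =
            T ^ m * MonoidAlgebra.single a z := by
          rw [pow_zero, one_mul, hTn, MonoidAlgebra.single_mul_single, one_mul, hm, zpow_natCast]
        rw [e]
        exact grSum_pow_mul (grSum_mem (grR_single ha z)) m
      · refine ⟨m, ?_⟩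
        have e : T ^ m * MonoidAlgebra.single (τ ^ k * a) z = MonoidAlgebra.single a z := by
          rw [hTn, MonoidAlgebra.single_mul_single, one_mul, hm, ← mul_assoc, zpow_neg,
            zpow_natCast, mul_inv_cancel, one_mul]
        rw [e]
        exact grSum_mem (grR_single ha z)
  refine skew_noeth (S := grR B) R hR ⟨T, hT⟩ ⟨U, hU⟩ (Subtype.ext hTU) (Subtype.ext hUT)
    (fun r hr => k1 _ hr) (fun r hr => k2 _ hr) ?_
  rintro ⟨x, hx⟩
  obtain ⟨n, k, c, h1, h2, h3⟩ := k3 x hx
  refine ⟨n, k, fun i => ⟨c i, hmono (h1 i)⟩, fun i => h1 i, ?_⟩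
  apply Subtype.ext
  push_cast
  exact h3

/-- PF-13. The integral group ring of a group with a central chain of generators is noetherian. -/
theorem groupRing_noeth (Q : Type) [Group Q] (l : ℕ) (t : ℕ → Q) (h : IsChain Q l t) :
    IsNoetherianRing (MonoidAlgebra ℤ Q) := by
  obtain ⟨htop, hch⟩ := h
  let A : ℕ → Subgroup Q := fun i => Subgroup.closure (t '' {j | j < i})
  have hmonoA : ∀ i j, i ≤ j → A i ≤ A j := by
    intro i j hij
    refine Subgroup.closure_mono (Set.image_mono ?_)
    intro k hk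
    exact lt_of_lt_of_le hk hij
  have hnorm : ∀ i, i ≤ l → ∀ a ∈ A i, ∀ q : Q, q * a * q⁻¹ ∈ A i := by
    intro i hi a ha q
    have hle : A i ≤ (A i).comap (MulAut.conj q).toMonoidHom := by
      refine (Subgroup.closure_le _).2 ?_
      rintro _ ⟨j, hj, rfl⟩
      have hj' : j < i := hj
      have h1 : ⁅t j, q⁆ ∈ A i := hmonoA j i hj'.le (hch j (lt_of_lt_of_le hj' hi) q)
      have h2 : t j ∈ A i := Subgroup.subset_closure ⟨j, hj, rfl⟩
      show q * t j * q⁻¹ ∈ A i
      have e : q * t j * q⁻¹ = ⁅t j, q⁆⁻¹ * t j := by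
        rw [commutatorElement_def]
        group
      rw [e]
      exact (A i).mul_mem ((A i).inv_mem h1) h2
    exact hle ha
  have key : ∀ i, i ≤ l → IsNoetherianRing (grR (A i)) := by
    intro i
    induction i with
    | zero =>
      intro _
      have hA0 : A 0 = ⊥ := by
        show Subgroup.closure (t '' {j | j < 0}) = ⊥
        have : t '' {j | j < 0} = ∅ := by
          ext x
          simp
        rw [this, Subgroup.closure_empty]
      let f : ℤ →+* grR (A 0) := Int.castRingHom _
      have hf : Function.Surjective f := by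
        rintro ⟨x, hx⟩
        suffices hh : ∃ z : ℤ, (z : MonoidAlgebra ℤ Q) = x by
          obtain ⟨z, hz⟩ := hh
          refine ⟨z, Subtype.ext ?_⟩
          show ((z : grR (A 0)) : MonoidAlgebra ℤ Q) = x
          rw [← hz]
          push_cast
          rfl
        revert x
        refine grR_induction ⟨0, by simp⟩ ?_ ?_
        · rintro x y ⟨a, ha⟩ ⟨b, hb⟩
          exact ⟨a + b, by rw [Int.cast_add, ha, hb]⟩
        · intro q hq z
          rw [hA0, Subgroup.mem_bot] at hq
          refine ⟨z, ?_⟩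
          rw [hq]
          have e : (z : MonoidAlgebra ℤ Q) = z • (1 : MonoidAlgebra ℤ Q) := by simp
          rw [e, MonoidAlgebra.one_def, MonoidAlgebra.smul_single]
          simp
      exact isNoetherianRing_of_surjective _ _ f hf
    | succ i ih =>
      intro hi
      have hil : i < l := hi
      have hti : t i ∈ A (i + 1) := Subgroup.subset_closure ⟨i, Nat.lt_succ_self i, rfl⟩
      refine grR_step (hmonoA i (i + 1) (Nat.le_succ i)) (t i) hti
        (fun a ha => hnorm i hil.le a ha (t i)) (fun a ha => ?_) ?_ (ih hil.le)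
      · have := hnorm i hil.le a ha (t i)⁻¹
        rwa [inv_inv] at this
      · intro b hb
        have hN := hnorm i hil.le
        refine Subgroup.closure_induction (p := fun b _ => ∃ k : ℤ, ∃ a ∈ A i, b = t i ^ k * a)
          ?_ ?_ ?_ ?_ hb
        · rintro _ ⟨j, hj, rfl⟩
          have hj' : j < i + 1 := hj
          rcases Nat.lt_succ_iff_lt_or_eq.1 hj' with h1 | h1
          · exact ⟨0, t j, Subgroup.subset_closure ⟨j, h1, rfl⟩, by simp⟩
          · exact ⟨1, 1, (A i).one_mem, by rw [h1]; simp⟩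
        · exact ⟨0, 1, (A i).one_mem, by simp⟩
        · rintro _ _ _ _ ⟨k, a, ha, rfl⟩ ⟨m, b, hb, rfl⟩
          refine ⟨k + m, (t i ^ m)⁻¹ * a * ((t i ^ m)⁻¹)⁻¹ * b,
            (A i).mul_mem (hN a ha _) hb, ?_⟩
          rw [zpow_add]
          group
        · rintro _ _ ⟨k, a, ha, rfl⟩
          refine ⟨-k, t i ^ k * a⁻¹ * (t i ^ k)⁻¹, hN _ ((A i).inv_mem ha) _, ?_⟩
          rw [zpow_neg]
          group
  have hl := key l le_rfl
  have htopA : A l = ⊤ := htop
  let f : grR (A l) →+* MonoidAlgebra ℤ Q := (grR (A l)).subtype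
  have hf : Function.Surjective f := by
    intro x
    have hx : x ∈ grR (A l) := by
      induction x using MonoidAlgebra.induction_linear with
      | zero => exact Subring.zero_mem _
      | add x y hx hy => exact Subring.add_mem _ hx hy
      | single m r =>
        exact grR_single (by rw [htopA]; exact Subgroup.mem_top m) r
    exact ⟨⟨x, hx⟩, rfl⟩
  exact isNoetherianRing_of_surjective _ _ f hf

end PF
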