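import Pool.Agent.PF.NormGen
import Pool.Agent.PF.Chain
import Pool.Agent.PF.GroupRing
import Pool.Agent.PF.AR
import Pool.Agent.PF.ConjMod

open scoped commutatorElement

namespace PF

private theorem krull_one {H M : Type} [Group H] [AddCommGroup M] {Γ : Subgroup H} {φ : Γ → M}
    (hm : ∀ x y, φ (x * y) = φ x + φ y) : φ 1 = 0 := by
  have h := hm 1 1
  rw [mul_one] at h
  exact left_eq_add.mp h

private theorem krull_inv {H M : Type} [Group H] [AddCommGroup M] {Γ : Subgroup H} {φ : Γ → M}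
    (hm : ∀ x y, φ (x * y) = φ x + φ y) (x : Γ) : φ x⁻¹ = - φ x := by
  have h := hm x x⁻¹
  rw [mul_inv_cancel, krull_one hm] at h
  exact (neg_eq_of_add_eq_zero_right h.symm).symm

/-- elements of a closure of a set are mapped to the submodule if the generators are -/
private theorem krull_closure {H M R : Type} [Group H] [AddCommGroup M] [Ring R] [Module R M]
    {Γ : Subgroup H} {φ : Γ → M} (hm : ∀ x y, φ (x * y) = φ x + φ y) (A : Set H)
    (S : Submodule R M) (hA : ∀ a ∈ A, ∃ ha : a ∈ Γ, φ ⟨a, ha⟩ ∈ S) :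
    ∀ x ∈ Subgroup.closure A, ∃ hx : x ∈ Γ, φ ⟨x, hx⟩ ∈ S := by
  intro x hx
  induction hx using Subgroup.closure_induction with
  | mem a ha => exact hA a ha
  | one => exact ⟨Γ.one_mem, by
      have h := krull_one hm
      have h2 : (⟨1, Γ.one_mem⟩ : Γ) = 1 := rfl
      rw [h2, h]; exact S.zero_mem⟩
  | mul a b _ _ iha ihb =>
    obtain ⟨ha, ha'⟩ := iha
    obtain ⟨hb, hb'⟩ := ihb
    refine ⟨Γ.mul_mem ha hb, ?_⟩
    have h2 : (⟨a * b, Γ.mul_mem ha hb⟩ : Γ) = ⟨a, ha⟩ * ⟨b, hb⟩ := rfl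
    rw [h2, hm]; exact S.add_mem ha' hb'
  | inv a _ iha =>
    obtain ⟨ha, ha'⟩ := iha
    refine ⟨Γ.inv_mem ha, ?_⟩
    have h2 : (⟨a⁻¹, Γ.inv_mem ha⟩ : Γ) = (⟨a, ha⟩ : Γ)⁻¹ := rfl
    rw [h2, krull_inv hm]; exact S.neg_mem ha'

/-- the submodule which belongs to a normal subgroup -/
private theorem krull_sub {H : Type} [Group H] (n : ℕ) {M : Type} [AddCommGroup M]
    [Module (MonoidAlgebra ℤ (H ⧸ gam H n)) M] {φ : gam H n → M}
    (hm : ∀ x y, φ (x * y) = φ x + φ y)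
    (hc : ∀ (g : H) (x y : gam H n), (y : H) = g * x * g⁻¹ →
        φ y = (MonoidAlgebra.of ℤ (H ⧸ gam H n) (g : H ⧸ gam H n)) • φ x)
    (K : Subgroup H) [hK : K.Normal] :
    ∃ L : Submodule (MonoidAlgebra ℤ (H ⧸ gam H n)) M,
      ∀ m, m ∈ L ↔ ∃ x : gam H n, (x : H) ∈ K ∧ φ x = m := by
  let A : AddSubgroup M :=
    { carrier := {m | ∃ x : gam H n, (x : H) ∈ K ∧ φ x = m}
      zero_mem' := ⟨1, K.one_mem, krull_one hm⟩
      add_mem' := by
        rintro a b ⟨x, hx, rfl⟩ ⟨y, hy, rfl⟩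
        exact ⟨x * y, K.mul_mem hx hy, hm x y⟩
      neg_mem' := by
        rintro a ⟨x, hx, rfl⟩
        exact ⟨x⁻¹, K.inv_mem hx, krull_inv hm x⟩ }
  refine ⟨{ carrier := A, zero_mem' := A.zero_mem, add_mem' := A.add_mem, smul_mem' := ?_ },
    fun m => Iff.rfl⟩
  intro r m hmA
  change r • m ∈ A
  have hmA' : m ∈ A := hmA
  revert m
  induction r using MonoidAlgebra.induction_on with
  | of q =>
    rintro m - ⟨x, hx, rfl⟩
    obtain ⟨g, rfl⟩ := QuotientGroup.mk_surjective q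
    have hy : g * x * g⁻¹ ∈ gam H n := (inferInstance : (gam H n).Normal).conj_mem _ x.2 g
    refine ⟨⟨g * x * g⁻¹, hy⟩, hK.conj_mem _ hx g, ?_⟩
    exact hc g x ⟨g * x * g⁻¹, hy⟩ rfl
  | add a b ha hb =>
    intro m h1 h2
    rw [add_smul]
    exact A.add_mem (ha h1 h2) (hb h1 h2)
  | smul c a ha =>
    intro m h1 h2
    rw [smul_assoc]
    exact A.zsmul_mem (ha h1 h2) c

/-- PF-16. A normal subgroup of a finitely generated group which lies in all terms of the lower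
central series. -/
theorem krull (H : Type) [Group H] [Group.FG H] (N : Subgroup H) [N.Normal]
    (hN : ∀ m, N ≤ gam H m) (n : ℕ) : N ≤ ⁅N, (⊤ : Subgroup H)⁆ ⊔ ⁅gam H n, gam H n⁆ := by
  have hQ : gam (H ⧸ gam H n) n = ⊥ := by
    have h1 := Subgroup.map_lowerCentralSeries (S := (⊤ : Subgroup H))
      (QuotientGroup.mk' (gam H n)) n
    rw [Subgroup.map_top_of_surjective _ (QuotientGroup.mk'_surjective _)] at h1
    change (⊤ : Subgroup (H ⧸ gam H n)).lowerCentralSeries n = ⊥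
    rw [← h1, QuotientGroup.map_mk'_self]
  obtain ⟨l, t, ht⟩ := exists_chain (H ⧸ gam H n) n hQ
  have hnoeth := groupRing_noeth _ l t ht
  obtain ⟨M, i1, i2, φ, hφs, hφm, hφk, hφc⟩ := exists_module H n
  obtain ⟨T, hT, hTn⟩ := gam_normal_gen H n
  -- `M` is finitely generated
  have hfin : Module.Finite (MonoidAlgebra ℤ (H ⧸ gam H n)) M := by
    have hTsub : ∀ a ∈ T, a ∈ gam H n := by
      intro a ha
      rw [hTn]
      exact Subgroup.subset_normalClosure ha
    let f : T → M := fun a => φ ⟨a, hTsub a a.2⟩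
    have : Finite T := hT
    refine ⟨⟨(Set.finite_range f).toFinset, ?_⟩⟩
    rw [Set.Finite.coe_toFinset, eq_top_iff]
    intro m _
    obtain ⟨x, rfl⟩ := hφs m
    have hx : (x : H) ∈ Subgroup.closure (Group.conjugatesOfSet T) := by
      have h0 : ∀ z : H, z ∈ gam H n → z ∈ Subgroup.closure (Group.conjugatesOfSet T) := by
        intro z hz
        rw [hTn] at hz
        exact hz
      exact h0 x x.2
    obtain ⟨h1, h2⟩ := krull_closure hφm (Group.conjugatesOfSet T)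
      (Submodule.span (MonoidAlgebra ℤ (H ⧸ gam H n)) (Set.range f)) (by
        intro a ha
        rw [Group.mem_conjugatesOfSet_iff] at ha
        obtain ⟨b, hb, hab⟩ := ha
        obtain ⟨g, hg⟩ := isConj_iff.1 hab
        have ha' : a ∈ gam H n := by
          rw [← hg]
          exact (inferInstance : (gam H n).Normal).conj_mem _ (hTsub b hb) g
        refine ⟨ha', ?_⟩
        rw [hφc g ⟨b, hTsub b hb⟩ ⟨a, ha'⟩ hg.symm]
        exact Submodule.smul_mem _ _ (Submodule.subset_span ⟨⟨b, hb⟩, rfl⟩)) x hx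
    exact h2
  have : IsNoetherian (MonoidAlgebra ℤ (H ⧸ gam H n)) M := inferInstance
  -- the submodules
  have hL := fun (K : Subgroup H) (hK : K.Normal) => krull_sub n hφm hφc K
  have step1 : ∀ j : ℕ, ∀ x : gam H n, (x : H) ∈ gam H (n + j) →
      φ x ∈ (aug (Q := H ⧸ gam H n) (M := M))^[j] ⊤ := by
    intro j
    induction j with
    | zero => intro x _; exact Submodule.mem_top
    | succ j ih =>
      intro x hx
      rw [Function.iterate_succ_apply']
      have hx' : (x : H) ∈ Subgroup.closure {y | ∃ p ∈ gam H (n + j), ∃ q ∈ (⊤ : Subgroup H),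
          ⁅p, q⁆ = y} := by
        have h1 := (Subgroup.mem_lowerCentralSeries_succ_iff (S := (⊤ : Subgroup H)) (n + j)
          (x : H)).1 hx
        exact h1
      obtain ⟨h1, h2⟩ := krull_closure hφm _
        (aug ((aug (Q := H ⧸ gam H n) (M := M))^[j] ⊤)) (by
          rintro a ⟨p, hp, q, -, rfl⟩
          have hpn : p ∈ gam H n :=
            Subgroup.lowerCentralSeries_antitone (S := (⊤ : Subgroup H)) (Nat.le_add_right n j) hp
          have hq : q * p⁻¹ * q⁻¹ ∈ gam H n :=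
            (inferInstance : (gam H n).Normal).conj_mem _ ((gam H n).inv_mem hpn) q
          have he : ⁅p, q⁆ = p * (q * p⁻¹ * q⁻¹) := by
            rw [commutatorElement_def]; group
          have ha : ⁅p, q⁆ ∈ gam H n := by
            rw [he]; exact (gam H n).mul_mem hpn hq
          refine ⟨ha, ?_⟩
          have e1 : (⟨⁅p, q⁆, ha⟩ : gam H n) = ⟨p, hpn⟩ * ⟨q * p⁻¹ * q⁻¹, hq⟩ :=
            Subtype.ext he
          rw [e1, hφm, hφc q (⟨p, hpn⟩ : gam H n)⁻¹ ⟨q * p⁻¹ * q⁻¹, hq⟩ rfl, krull_inv hφm,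
            smul_neg]
          have e2 : φ ⟨p, hpn⟩ + -(MonoidAlgebra.of ℤ (H ⧸ gam H n) (q : H ⧸ gam H n) •
              φ ⟨p, hpn⟩) = -(MonoidAlgebra.of ℤ (H ⧸ gam H n) (q : H ⧸ gam H n) •
              φ ⟨p, hpn⟩ - φ ⟨p, hpn⟩) := by abel
          rw [e2]
          exact Submodule.neg_mem _ (Submodule.subset_span ⟨_, _, ih ⟨p, hpn⟩ hp, rfl⟩)) x hx'
      exact h2
  obtain ⟨LN, hLN⟩ := krull_sub n hφm hφc N
  obtain ⟨LC, hLC⟩ := krull_sub n hφm hφc ⁅N, (⊤ : Subgroup H)⁆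
  have h2 : LN ≤ aug LN := by
    refine le_aug (H ⧸ gam H n) l t ht M LN (fun j => ?_)
    intro m hm
    obtain ⟨x, hx, rfl⟩ := (hLN m).1 hm
    exact step1 j x (hN (n + j) hx)
  have h3 : aug LN ≤ LC := by
    refine Submodule.span_le.2 ?_
    rintro _ ⟨q, m, hm, rfl⟩
    obtain ⟨x, hx, rfl⟩ := (hLN m).1 hm
    obtain ⟨g, rfl⟩ := QuotientGroup.mk_surjective q
    have hy : g * x * g⁻¹ ∈ gam H n := (inferInstance : (gam H n).Normal).conj_mem _ x.2 g
    have h4 := hφc g x ⟨g * x * g⁻¹, hy⟩ rfl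
    change _ ∈ LC
    rw [hLC]
    refine ⟨⟨g * x * g⁻¹, hy⟩ * x⁻¹, ?_, ?_⟩
    · have h5 : ((⟨g * x * g⁻¹, hy⟩ * x⁻¹ : gam H n) : H) = ⁅(x : H), g⁆⁻¹ := by
        rw [commutatorElement_inv, commutatorElement_def]
        rfl
      rw [h5]
      exact Subgroup.inv_mem _ (Subgroup.commutator_mem_commutator hx (Subgroup.mem_top g))
    · rw [hφm, krull_inv hφm, h4, sub_eq_add_neg]
  intro x hx
  have hxn : x ∈ gam H n := hN n hx
  obtain ⟨y, hy, hxy⟩ := (hLC _).1 (h3 (h2 ((hLN (φ ⟨x, hxn⟩)).2 ⟨⟨x, hxn⟩, hx, rfl⟩)))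
  have h5 : φ (⟨x, hxn⟩ * y⁻¹) = 0 := by
    rw [hφm, krull_inv hφm, hxy, add_neg_cancel]
  have h6 := (hφk _).1 h5
  have h7 : x = (x * (y : H)⁻¹) * y := by group
  rw [h7]
  exact Subgroup.mul_mem _ (Subgroup.mem_sup_right h6) (Subgroup.mem_sup_left hy)

end PF
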