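import Pool.Agent.PF.Defs

/-!
# Elements of a normal closure which lie in the commutator subgroup
-/

open scoped commutatorElement

namespace PF

/-- PF-6. For relators `u_j⁻¹ w_j` with `w_j` in the commutator subgroup of the free group on
`x_i, u_j`: an element of the normal closure `S` which lies in the commutator subgroup lies in
`⁅S, F⁆`. -/
theorem mem_comm_of_mem (ι κ : Type) (w : κ → FreeGroup (ι ⊕ κ))
    (hw : ∀ j, w j ∈ commutator (FreeGroup (ι ⊕ κ))) (x : FreeGroup (ι ⊕ κ))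
    (hx : x ∈ Subgroup.normalClosure
      (Set.range fun j => (FreeGroup.of (Sum.inr j) : FreeGroup (ι ⊕ κ))⁻¹ * w j))
    (hx' : x ∈ commutator (FreeGroup (ι ⊕ κ))) :
    x ∈ ⁅Subgroup.normalClosure
      (Set.range fun j => (FreeGroup.of (Sum.inr j) : FreeGroup (ι ⊕ κ))⁻¹ * w j),
      (⊤ : Subgroup (FreeGroup (ι ⊕ κ)))⁆ := by
  set S := Subgroup.normalClosure
      (Set.range fun j => (FreeGroup.of (Sum.inr j) : FreeGroup (ι ⊕ κ))⁻¹ * w j) with hS
  have hSn : S.Normal := Subgroup.normalClosure_normal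
  set T := ⁅S, (⊤ : Subgroup (FreeGroup (ι ⊕ κ)))⁆ with hT
  have hTS : T ≤ S := Subgroup.commutator_le_left S ⊤
  have hTc : T ≤ commutator (FreeGroup (ι ⊕ κ)) := by
    rw [commutator_def]
    exact Subgroup.commutator_mono le_top le_rfl
  let ρ : FreeGroup κ →* FreeGroup (ι ⊕ κ) :=
    FreeGroup.lift fun j => (FreeGroup.of (Sum.inr j) : FreeGroup (ι ⊕ κ))⁻¹ * w j
  have hgen : ∀ j, (FreeGroup.of (Sum.inr j) : FreeGroup (ι ⊕ κ))⁻¹ * w j ∈ S := fun j =>
    Subgroup.subset_normalClosure ⟨j, rfl⟩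
  have hρS : ρ.range ≤ S := by
    refine FreeGroup.range_lift_le ?_
    rintro _ ⟨j, rfl⟩
    exact hgen j
  let θ : FreeGroup (ι ⊕ κ) →* Abelianization (FreeGroup κ) :=
    FreeGroup.lift (Sum.elim (fun _ => 1) fun j => (Abelianization.of (FreeGroup.of j))⁻¹)
  have hθc : ∀ z ∈ commutator (FreeGroup (ι ⊕ κ)), θ z = 1 := fun z hz =>
    Abelianization.commutator_subset_ker θ hz
  have hθρ : ∀ y, θ (ρ y) = Abelianization.of y := by
    have h : θ.comp ρ = Abelianization.of := by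
      refine FreeGroup.ext_hom _ _ fun j => ?_
      have h1 : ρ (FreeGroup.of j) = (FreeGroup.of (Sum.inr j) : FreeGroup (ι ⊕ κ))⁻¹ * w j :=
        FreeGroup.lift_apply_of
      have h2 : θ (FreeGroup.of (Sum.inr j)) = (Abelianization.of (FreeGroup.of j))⁻¹ :=
        FreeGroup.lift_apply_of
      rw [MonoidHom.comp_apply, h1, map_mul, map_inv, h2, hθc (w j) (hw j), inv_inv, mul_one]
    intro y
    exact DFunLike.congr_fun h y
  -- `P = ρ(F_κ) T` is normal
  have hPS : ρ.range ⊔ T ≤ S := sup_le hρS hTS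
  have hPn : (ρ.range ⊔ T).Normal := by
    refine ⟨fun p hp g => ?_⟩
    have h1 : ⁅g, p⁆ ∈ T := by
      have : ⁅g, p⁆ ∈ ⁅(⊤ : Subgroup (FreeGroup (ι ⊕ κ))), S⁆ :=
        Subgroup.commutator_mem_commutator (Subgroup.mem_top g) (hPS hp)
      rwa [Subgroup.commutator_comm] at this
    have h2 : g * p * g⁻¹ = ⁅g, p⁆ * p := by
      rw [commutatorElement_def]
      group
    rw [h2]
    exact mul_mem (Subgroup.mem_sup_right h1) hp
  have hSP : S ≤ ρ.range ⊔ T := by
    refine Subgroup.normalClosure_le_normal ?_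
    rintro _ ⟨j, rfl⟩
    exact Subgroup.mem_sup_left ⟨FreeGroup.of j, by simp [ρ]⟩
  have hxP := hSP hx
  have hTn : T.Normal := inferInstance
  rw [Subgroup.mem_sup_of_normal_right] at hxP
  obtain ⟨_, ⟨y, rfl⟩, t, ht, rfl⟩ := hxP
  have h3 : Abelianization.of y = 1 := by
    have h4 := hθc _ hx'
    rw [map_mul, hθc t (hTc ht), mul_one, hθρ] at h4
    exact h4
  have h5 : y ∈ commutator (FreeGroup κ) := by
    rw [← Abelianization.ker_of]
    exact h3
  have h6 : ρ y ∈ T := by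
    have h7 : ρ y ∈ (commutator (FreeGroup κ)).map ρ := ⟨y, h5, rfl⟩
    rw [commutator_def, Subgroup.map_commutator] at h7
    refine Subgroup.commutator_mono ?_ le_top h7
    rw [← MonoidHom.range_eq_map]
    exact hρS
  exact mul_mem h6 ht

end PF
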