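import Pool.Agent.PF.Levine
import Pool.Agent.PF.Krull
import Pool.Agent.PF.RelFree

open scoped commutatorElement

namespace PF

theorem comm_central {E : Type} [Group E] (a b x y : E) (ha : ∀ e, a * e = e * a)
    (hb : ∀ e, b * e = e * b) : ⁅a * x, b * y⁆ = ⁅x, y⁆ := by
  have ka : ∀ e, a⁻¹ * e = e * a⁻¹ := fun e => by
    have := ha (a⁻¹ * e * a⁻¹)
    calc a⁻¹ * e = (a⁻¹ * e * a⁻¹) * a := by group
      _ = a * (a⁻¹ * e * a⁻¹) := this.symm
      _ = e * a⁻¹ := by group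
  have kb : ∀ e, b⁻¹ * e = e * b⁻¹ := fun e => by
    have := hb (b⁻¹ * e * b⁻¹)
    calc b⁻¹ * e = (b⁻¹ * e * b⁻¹) * b := by group
      _ = b * (b⁻¹ * e * b⁻¹) := this.symm
      _ = e * b⁻¹ := by group
  rw [commutatorElement_def, commutatorElement_def]
  calc a * x * (b * y) * (a * x)⁻¹ * (b * y)⁻¹
      = a * (x * (b * y) * x⁻¹ * (a⁻¹ * (y⁻¹ * b⁻¹))) := by group
    _ = a * (x * (b * y) * x⁻¹ * ((y⁻¹ * b⁻¹) * a⁻¹)) := by rw [ka]
    _ = a * ((x * (b * y) * x⁻¹ * (y⁻¹ * b⁻¹)) * a⁻¹) := by group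
    _ = a * (a⁻¹ * (x * (b * y) * x⁻¹ * (y⁻¹ * b⁻¹))) := by rw [ka]
    _ = x * (b * y) * x⁻¹ * (y⁻¹ * b⁻¹) := by group
    _ = x * (b * (y * x⁻¹ * (y⁻¹ * b⁻¹))) := by group
    _ = x * ((y * x⁻¹ * (y⁻¹ * b⁻¹)) * b) := by rw [hb]
    _ = x * y * x⁻¹ * y⁻¹ := by group

theorem core_aux (G : Type) [Group G] (n : ℕ)
    (E : Type) [Group E] (p : E →* G)
    (hc : ∀ c : E, p c = 1 → ∀ e, c * e = e * c)
    (h : ∀ e ∈ ⁅(gam G n).comap p, (gam G n).comap p⁆, p e = 1 → e = 1)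
    (F : Type) [Group F] [Group.FG F] (π : F →* G) (hπ : Function.Surjective π)
    (σ : F →* E) (hσ : ∀ x : F, p (σ x) = π x)
    (S : Subgroup F) [S.Normal] (hS1 : S ≤ π.ker)
    (hS2 : ∀ x ∈ S, x ∈ commutator F → x ∈ ⁅S, (⊤ : Subgroup F)⁆)
    (hker : ∀ m : ℕ, π.ker ≤ S ⊔ gam F m) :
    ∀ e ∈ commutator E, p e = 1 → e = 1 := by
  have hcomm : commutator E ≤ (commutator F).map σ := by
    rw [commutator_def, Subgroup.commutator_le]
    intro e1 _ e2 _
    obtain ⟨v1, hv1⟩ := hπ (p e1)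
    obtain ⟨v2, hv2⟩ := hπ (p e2)
    refine ⟨⁅v1, v2⁆, Subgroup.commutator_mem_commutator (Subgroup.mem_top _)
      (Subgroup.mem_top _), ?_⟩
    have c1 := hc (e1 * (σ v1)⁻¹) (by rw [map_mul, map_inv, hσ, hv1, mul_inv_cancel])
    have c2 := hc (e2 * (σ v2)⁻¹) (by rw [map_mul, map_inv, hσ, hv2, mul_inv_cancel])
    have := comm_central _ _ (σ v1) (σ v2) c1 c2
    rw [inv_mul_cancel_right, inv_mul_cancel_right] at this
    rw [map_commutatorElement, this]
  intro e he hpe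
  obtain ⟨v, hv, rfl⟩ := hcomm he
  have hvR : v ∈ π.ker := by
    rw [MonoidHom.mem_ker, ← hσ]; exact hpe
  -- krull in `F / S`
  have hgam : ∀ m, (gam F m).map (QuotientGroup.mk' S) = gam (F ⧸ S) m := by
    intro m
    rw [gam, Subgroup.map_lowerCentralSeries,
      Subgroup.map_top_of_surjective _ (QuotientGroup.mk'_surjective S)]
  have hbotS : S.map (QuotientGroup.mk' S) = ⊥ := by
    rw [Subgroup.map_eq_bot_iff, QuotientGroup.ker_mk']
  have hNn : (π.ker.map (QuotientGroup.mk' S)).Normal :=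
    Subgroup.Normal.map inferInstance _ (QuotientGroup.mk'_surjective S)
  have hk := krull (F ⧸ S) (π.ker.map (QuotientGroup.mk' S)) (fun m => by
    rw [← hgam]
    refine (Subgroup.map_mono (hker m)).trans ?_
    rw [Subgroup.map_sup, hbotS, bot_sup_eq]) n
  have hv2 : QuotientGroup.mk' S v ∈
      (⁅π.ker, (⊤ : Subgroup F)⁆ ⊔ ⁅gam F n, gam F n⁆).map (QuotientGroup.mk' S) := by
    rw [Subgroup.map_sup, Subgroup.map_commutator, Subgroup.map_commutator, hgam,
      Subgroup.map_top_of_surjective _ (QuotientGroup.mk'_surjective S)]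
    exact hk (Subgroup.mem_map_of_mem _ hvR)
  obtain ⟨x, hx, hxv⟩ := hv2
  have hs : x⁻¹ * v ∈ S := by
    rw [← QuotientGroup.eq]; exact hxv
  obtain ⟨d, hd, c, hcc, rfl⟩ := Subgroup.mem_sup_of_normal_right.1 hx
  have hmono1 : ⁅π.ker, (⊤ : Subgroup F)⁆ ≤ commutator F :=
    Subgroup.commutator_mono le_top le_top
  have hmono2 : ⁅gam F n, gam F n⁆ ≤ commutator F :=
    Subgroup.commutator_mono le_top le_top
  have hs2 : (d * c)⁻¹ * v ∈ ⁅S, (⊤ : Subgroup F)⁆ := by
    apply hS2 _ hs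
    exact (commutator F).mul_mem ((commutator F).inv_mem
      ((commutator F).mul_mem (hmono1 hd) (hmono2 hcc))) hv
  have hkill : ∀ y ∈ ⁅π.ker, (⊤ : Subgroup F)⁆, σ y = 1 := by
    intro y hy
    have : ⁅π.ker, (⊤ : Subgroup F)⁆ ≤ σ.ker := by
      rw [Subgroup.commutator_le]
      intro r hr z _
      have hcr := hc (σ r) (by rw [hσ]; exact hr)
      rw [MonoidHom.mem_ker, map_commutatorElement, commutatorElement_def, hcr]
      group
    exact this hy
  have h1 : σ ((d * c)⁻¹ * v) = 1 := hkill _ (Subgroup.commutator_mono hS1 le_rfl hs2)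
  have h2 : σ d = 1 := hkill _ hd
  have h3 : σ v = σ c := by
    rw [map_mul, map_inv, map_mul, h2, one_mul, inv_mul_eq_one] at h1
    exact h1.symm
  rw [h3] at hpe ⊢
  apply h _ _ hpe
  have hle : ⁅gam F n, gam F n⁆.map σ ≤ ⁅(gam G n).comap p, (gam G n).comap p⁆ := by
    rw [Subgroup.map_commutator]
    have : (gam F n).map σ ≤ (gam G n).comap p := by
      rw [← Subgroup.map_le_iff_le_comap, Subgroup.map_map]
      have hpσ : p.comp σ = π := MonoidHom.ext hσ
      rw [hpσ, gam, Subgroup.map_lowerCentralSeries, Subgroup.map_top_of_surjective _ hπ]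
    exact Subgroup.commutator_mono this this
  exact hle (Subgroup.mem_map_of_mem _ hcc)

/-- PF-18. Central extensions of finitely generated parafree groups. -/
theorem core (G : Type) [Group G] [Group.FG G] (hG : IsParafree G) (n : ℕ)
    (E : Type) [Group E] (p : E →* G) (hp : Function.Surjective p)
    (hc : ∀ c : E, p c = 1 → ∀ e, c * e = e * c)
    (h : ∀ e ∈ ⁅(gam G n).comap p, (gam G n).comap p⁆, p e = 1 → e = 1) :
    ∀ e ∈ commutator E, p e = 1 → e = 1 := by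
  obtain ⟨ι, κ, hι, hκ, π, w, hπ, hw, hrel, hker⟩ := levine G hG
  let σ : FreeGroup (ι ⊕ κ) →* E :=
    FreeGroup.lift (fun z => Classical.choose (hp (π (FreeGroup.of z))))
  have hσ : ∀ x, p (σ x) = π x := by
    intro x
    have : p.comp σ = π := by
      apply FreeGroup.ext_hom
      intro z
      simp only [MonoidHom.comp_apply, σ, FreeGroup.lift_apply_of]
      exact Classical.choose_spec (hp (π (FreeGroup.of z)))
    rw [← this]; rfl
  refine core_aux G n E p hc h (FreeGroup (ι ⊕ κ)) π hπ σ hσ _ ?_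
    (fun x hx hx' => mem_comm_of_mem ι κ w hw x hx hx') hker
  rw [← Subgroup.normalClosure_subset_iff]
  rintro _ ⟨j, rfl⟩
  simp only [SetLike.mem_coe, MonoidHom.mem_ker, map_mul, map_inv, hrel, inv_mul_cancel]

end PF
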