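import Pool.Agent.PF.Defs

namespace PF

/-- underlying type of the central extension -/
@[ext] private structure ExtB (G : Type) (f : G → G → QZ) where
  a : QZ
  g : G

private theorem coc_one_left {G : Type} [Group G] {f : G → G → QZ} (hf : IsCoc f) (j : G) :
    f 1 j = f 1 1 := by
  have h1 := hf 1 1 j
  simp only [one_mul, mul_one] at h1
  have h2 : f 1 j + f 1 j = f 1 j + f 1 1 := h1
  exact add_left_cancel h2

private theorem coc_one_right {G : Type} [Group G] {f : G → G → QZ} (hf : IsCoc f) (g : G) :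
    f g 1 = f 1 1 := by
  have h1 := hf g 1 1
  simp only [mul_one] at h1
  have h2 : f 1 1 + f g 1 = f g 1 + f g 1 := h1
  exact (add_right_cancel h2).symm

private def extMul {G : Type} [Group G] (f : G → G → QZ) (x y : ExtB G f) : ExtB G f :=
  ⟨x.a + y.a + f x.g y.g, x.g * y.g⟩

private theorem ext_assoc {G : Type} [Group G] {f : G → G → QZ} (hf : IsCoc f)
    (x y z : ExtB G f) : extMul f (extMul f x y) z = extMul f x (extMul f y z) := by
  ext
  · change x.a + y.a + f x.g y.g + z.a + f (x.g * y.g) z.g =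
      x.a + (y.a + z.a + f y.g z.g) + f x.g (y.g * z.g)
    have h := hf x.g y.g z.g
    calc x.a + y.a + f x.g y.g + z.a + f (x.g * y.g) z.g
        = x.a + y.a + z.a + (f (x.g * y.g) z.g + f x.g y.g) := by abel
      _ = x.a + y.a + z.a + (f y.g z.g + f x.g (y.g * z.g)) := by rw [← h]
      _ = x.a + (y.a + z.a + f y.g z.g) + f x.g (y.g * z.g) := by abel
  · exact mul_assoc _ _ _

private theorem ext_one_mul {G : Type} [Group G] {f : G → G → QZ} (hf : IsCoc f)
    (x : ExtB G f) : extMul f ⟨-f 1 1, 1⟩ x = x := by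
  ext
  · change -f 1 1 + x.a + f 1 x.g = x.a
    rw [coc_one_left hf x.g]; abel
  · exact one_mul _

private theorem ext_inv_mul {G : Type} [Group G] {f : G → G → QZ}
    (x : ExtB G f) : extMul f ⟨-f 1 1 - x.a - f x.g⁻¹ x.g, x.g⁻¹⟩ x = ⟨-f 1 1, 1⟩ := by
  ext
  · change -f 1 1 - x.a - f x.g⁻¹ x.g + x.a + f x.g⁻¹ x.g = -f 1 1
    abel
  · exact inv_mul_cancel _

/-- PF-3. The central extension of `G` by `ℚ/ℤ` with a given cocycle. -/
theorem exists_ext (G : Type) [Group G] (f : G → G → QZ) (hf : IsCoc f) :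
    ∃ (E : Type) (_ : Group E) (p : E →* G) (s : G → E) (i : QZ → E),
      (∀ g, p (s g) = g) ∧ (∀ a b, i (a + b) = i a * i b) ∧ Function.Injective i ∧
      (∀ e, p e = 1 ↔ ∃ a, i a = e) ∧ (∀ a e, i a * e = e * i a) ∧
      (∀ g h, s g * s h = i (f g h) * s (g * h)) := by
  letI : Mul (ExtB G f) := ⟨extMul f⟩
  letI : One (ExtB G f) := ⟨⟨-f 1 1, 1⟩⟩
  letI : Inv (ExtB G f) := ⟨fun x => ⟨-f 1 1 - x.a - f x.g⁻¹ x.g, x.g⁻¹⟩⟩
  letI : Group (ExtB G f) :=
    Group.ofLeftAxioms (ext_assoc hf) (ext_one_mul hf) ext_inv_mul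
  have mul_def : ∀ x y : ExtB G f, x * y = ⟨x.a + y.a + f x.g y.g, x.g * y.g⟩ :=
    fun _ _ => rfl
  refine ⟨ExtB G f, inferInstance, MonoidHom.mk' (fun x => x.g) (fun _ _ => rfl),
    fun g => ⟨0, g⟩, fun a => ⟨a - f 1 1, 1⟩, fun g => rfl, ?_, ?_, ?_, ?_, ?_⟩
  · intro a b
    rw [mul_def]
    ext
    · change a + b - f 1 1 = a - f 1 1 + (b - f 1 1) + f 1 1
      abel
    · exact (mul_one _).symm
  · intro a b hab
    have h : a - f 1 1 = b - f 1 1 := congrArg ExtB.a hab
    exact sub_left_injective h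
  · intro e
    constructor
    · intro he
      have he' : e.g = 1 := he
      refine ⟨e.a + f 1 1, ?_⟩
      ext
      · change e.a + f 1 1 - f 1 1 = e.a
        abel
      · exact he'.symm
    · rintro ⟨a, rfl⟩
      rfl
  · intro a e
    rw [mul_def, mul_def]
    ext
    · change a - f 1 1 + e.a + f 1 e.g = e.a + (a - f 1 1) + f e.g 1
      rw [coc_one_left hf e.g, coc_one_right hf e.g]; abel
    · change 1 * e.g = e.g * 1
      rw [one_mul, mul_one]
  · intro g h
    rw [mul_def, mul_def]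
    ext
    · change 0 + 0 + f g h = f g h - f 1 1 + 0 + f 1 (g * h)
      rw [coc_one_left hf (g * h)]; abel
    · change g * h = 1 * (g * h)
      rw [one_mul]

end PF
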