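import Pool.Agent.PF.Defs

namespace PF

/-- PF-4. If the kernel of a central extension meets the commutator subgroup trivially, then the
cocycle is a coboundary. -/
theorem cob_of_inter (G : Type) [Group G] (f : G → G → QZ)
    (E : Type) [Group E] (p : E →* G) (s : G → E) (i : QZ → E)
    (h1 : ∀ g, p (s g) = g) (h2 : ∀ a b, i (a + b) = i a * i b) (h3 : Function.Injective i)
    (h4 : ∀ e, p e = 1 ↔ ∃ a, i a = e) (h5 : ∀ a e, i a * e = e * i a)
    (h6 : ∀ g h, s g * s h = i (f g h) * s (g * h))
    (h : ∀ e ∈ commutator E, p e = 1 → e = 1) : IsCob f := by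
  have hi0 : i 0 = 1 := by
    have := h2 0 0
    rw [add_zero] at this
    exact (mul_eq_left.1 this.symm)
  let j : QZ →+ Additive (Abelianization E) :=
    { toFun := fun a => Additive.ofMul (Abelianization.of (i a))
      map_zero' := by rw [hi0, map_one]; rfl
      map_add' := fun a b => by rw [h2, map_mul]; rfl }
  have hj : Function.Injective j := by
    rw [injective_iff_map_eq_zero]
    intro a ha
    have h7 : Abelianization.of (i a) = 1 := ha
    have h8 : i a ∈ commutator E := by
      rw [← Abelianization.ker_of]
      exact h7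
    have h9 := h (i a) h8 ((h4 _).2 ⟨a, rfl⟩)
    exact h3 (h9.trans hi0.symm)
  obtain ⟨χ, hχ⟩ := (Module.Baer.of_divisible QZ).extension_property_addMonoidHom j hj
    (AddMonoidHom.id QZ)
  have hχ' : ∀ a, χ (j a) = a := fun a => by
    have := DFunLike.congr_fun hχ a
    simpa using this
  refine ⟨fun g => χ (Additive.ofMul (Abelianization.of (s g))), fun g k => ?_⟩
  have h7 : Additive.ofMul (Abelianization.of (s g)) + Additive.ofMul (Abelianization.of (s k))
      = j (f g k) + Additive.ofMul (Abelianization.of (s (g * k))) := by
    have := congrArg (fun e => Additive.ofMul (Abelianization.of e)) (h6 g k)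
    simp only [map_mul, ofMul_mul] at this
    exact this
  have h8 := congrArg χ h7
  rw [map_add, map_add, hχ'] at h8
  rw [h8]
  abel

end PF
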