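import Pool.Agent.PF.Defs

namespace PF

/-- PF-5. If the restriction of the cocycle to a subgroup `K` is a coboundary, then the kernel of the
central extension meets the commutator subgroup of the preimage of `K` trivially. -/
theorem inter_of_cob (G : Type) [Group G] (f : G → G → QZ)
    (E : Type) [Group E] (p : E →* G) (s : G → E) (i : QZ → E)
    (h1 : ∀ g, p (s g) = g) (h2 : ∀ a b, i (a + b) = i a * i b) (h3 : Function.Injective i)
    (h4 : ∀ e, p e = 1 ↔ ∃ a, i a = e) (h5 : ∀ a e, i a * e = e * i a)
    (h6 : ∀ g h, s g * s h = i (f g h) * s (g * h))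
    (K : Subgroup G) (hK : IsCob (fun a b : K => f a b)) :
    ∀ e ∈ ⁅K.comap p, K.comap p⁆, p e = 1 → e = 1 := by
  obtain ⟨b, hb⟩ := hK
  have hc : ∀ e : E, ∃ c : QZ, i c * s (p e) = e := by
    intro e
    have : p (e * (s (p e))⁻¹) = 1 := by rw [map_mul, map_inv, h1]; simp
    obtain ⟨c, hc⟩ := (h4 _).1 this
    exact ⟨c, by rw [hc]; group⟩
  choose c hc using hc
  have hi0 : i 0 = 1 := by
    have := h2 0 0
    rw [add_zero] at this
    exact (left_eq_mul.1 this)
  have hmul : ∀ e e' : E, c (e * e') = c e + c e' + f (p e) (p e') := by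
    intro e e'
    apply h3
    have e1 : i (c (e * e')) * s (p (e * e')) = e * e' := hc _
    have e2 : i (c e + c e' + f (p e) (p e')) * s (p (e * e')) = e * e' := by
      rw [h2, h2, map_mul, mul_assoc (i (c e) * i (c e')), ← h6]
      calc i (c e) * i (c e') * (s (p e) * s (p e'))
          = i (c e) * (i (c e') * s (p e)) * s (p e') := by group
        _ = i (c e) * (s (p e) * i (c e')) * s (p e') := by rw [h5 (c e') (s (p e))]
        _ = (i (c e) * s (p e)) * (i (c e') * s (p e')) := by group
        _ = e * e' := by rw [hc, hc]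
    exact mul_right_cancel (e1.trans e2.symm)
  let χ : (K.comap p) →* Multiplicative QZ := MonoidHom.mk'
    (fun e => Multiplicative.ofAdd (c e.1 + b ⟨p e.1, e.2⟩)) (by
      intro x y
      rw [← ofAdd_add]
      congr 1
      have h := hb ⟨p x.1, x.2⟩ ⟨p y.1, y.2⟩
      have h' : b ⟨p (x * y).1, (x * y).2⟩
          = b (⟨p x.1, x.2⟩ * ⟨p y.1, y.2⟩ : K) := by
        congr 1
        apply Subtype.ext
        show p (x.1 * y.1) = p x.1 * p y.1
        exact map_mul p _ _
      rw [h']
      show c (x.1 * y.1) + _ = _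
      rw [hmul]
      simp only at h
      rw [h]
      abel)
  intro e he hpe
  rw [← Subgroup.map_subtype_commutator] at he
  obtain ⟨x, hx, rfl⟩ := he
  have hχ : χ x = 1 := Abelianization.commutator_subset_ker χ hx
  have hχ' : c x.1 + b ⟨p x.1, x.2⟩ = 0 := by
    have := congrArg Multiplicative.toAdd hχ
    exact this
  change p x.1 = 1 at hpe
  show x.1 = 1
  have hs1 : s 1 = i (b 1) := by
    have h := h6 1 1
    rw [mul_one] at h
    have h' := mul_right_cancel h
    have hb1 := hb 1 1
    simp only [Subgroup.coe_one, mul_one] at hb1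
    rw [h', hb1]
    congr 1
    abel
  have hb1 : (⟨p x.1, x.2⟩ : K) = 1 := Subtype.ext hpe
  rw [hb1] at hχ'
  rw [← hc x.1, hpe, hs1, ← h2, hχ', hi0]

end PF
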