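import Pool.Agent.PF.ExtBuild
import Pool.Agent.PF.ExtCob

open scoped commutatorElement

namespace PF

namespace LocFreeAux

/-- every element of the commutator subgroup lies in `⁅E₀, E₀⁆` for a finitely generated `E₀`. -/
theorem exists_fg (E : Type) [Group E] (e : E) (he : e ∈ commutator E) :
    ∃ E₀ : Subgroup E, E₀.FG ∧ e ∈ ⁅E₀, E₀⁆ := by
  rw [commutator_eq_closure] at he
  induction he using Subgroup.closure_induction with
  | mem x hx =>
    obtain ⟨a, b, rfl⟩ := hx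
    refine ⟨Subgroup.closure {a, b}, (Subgroup.fg_iff _).2 ⟨{a, b}, rfl, by simp⟩, ?_⟩
    exact Subgroup.commutator_mem_commutator (Subgroup.subset_closure (by simp))
      (Subgroup.subset_closure (by simp))
  | one => exact ⟨⊥, Subgroup.FG.bot, one_mem _⟩
  | mul x y _ _ hx hy =>
    obtain ⟨E₁, h1, h1'⟩ := hx
    obtain ⟨E₂, h2, h2'⟩ := hy
    refine ⟨E₁ ⊔ E₂, h1.sup h2, mul_mem ?_ ?_⟩
    · exact Subgroup.commutator_mono le_sup_left le_sup_left h1'
    · exact Subgroup.commutator_mono le_sup_right le_sup_right h2'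
  | inv x _ hx =>
    obtain ⟨E₁, h1, h1'⟩ := hx
    exact ⟨E₁, h1, inv_mem h1'⟩

theorem map_fg {E G : Type} [Group E] [Group G] (p : E →* G) {E₀ : Subgroup E} (h : E₀.FG) :
    (E₀.map p).FG := by
  rw [Subgroup.fg_iff] at h ⊢
  obtain ⟨S, hS, hf⟩ := h
  refine ⟨p '' S, ?_, hf.image p⟩
  rw [← hS, MonoidHom.map_closure]

theorem comm_central {E : Type} [Group E] {z w a b : E} (hz : ∀ e, z * e = e * z)
    (hw : ∀ e, w * e = e * w) : ⁅z * a, w * b⁆ = ⁅a, b⁆ := by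
  simp only [commutatorElement_def, mul_inv_rev]
  have hz' : ∀ e, z⁻¹ * e = e * z⁻¹ := fun e => by
    rw [inv_mul_eq_iff_eq_mul, ← mul_assoc, hz e, mul_assoc, mul_inv_cancel, mul_one]
  have hw' : ∀ e, w⁻¹ * e = e * w⁻¹ := fun e => by
    rw [inv_mul_eq_iff_eq_mul, ← mul_assoc, hw e, mul_assoc, mul_inv_cancel, mul_one]
  calc z * a * (w * b) * (a⁻¹ * z⁻¹) * (b⁻¹ * w⁻¹)
      = z * (a * (w * (b * (a⁻¹ * (z⁻¹ * (b⁻¹ * w⁻¹)))))) := by simp only [mul_assoc]
    _ = z * (a * (w * (b * (a⁻¹ * (b⁻¹ * w⁻¹ * z⁻¹))))) := by rw [hz' (b⁻¹ * w⁻¹)]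
    _ = z * (a * (w * (b * a⁻¹ * b⁻¹) * w⁻¹) * z⁻¹) := by simp only [mul_assoc]
    _ = z * (a * (b * a⁻¹ * b⁻¹) * z⁻¹) := by
        rw [hw (b * a⁻¹ * b⁻¹)]; simp only [mul_assoc, mul_inv_cancel, mul_one]
    _ = a * (b * a⁻¹ * b⁻¹) := by
        rw [← mul_assoc z, hz (a * (b * a⁻¹ * b⁻¹))]; simp only [mul_assoc, mul_inv_cancel, mul_one]
    _ = a * b * a⁻¹ * b⁻¹ := by simp only [mul_assoc]

end LocFreeAux

open LocFreeAux in
/-- PF-19. For a locally free group every 2-cocycle with values in `ℚ/ℤ` is a coboundary. -/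
theorem cob_of_locFree (G : Type) [Group G] (h : ∀ S : Subgroup G, S.FG → IsFreeGroup S)
    (f : G → G → QZ) (hf : IsCoc f) : IsCob f := by
  obtain ⟨E, _, p, s, i, h1, h2, h3, h4, h5, h6⟩ := exists_ext G f hf
  refine cob_of_inter G f E p s i h1 h2 h3 h4 h5 h6 ?_
  intro e he hpe
  obtain ⟨E₀, hfg, he₀⟩ := exists_fg E e he
  have hfree : IsFreeGroup (E₀.map p) := h _ (map_fg p hfg)
  have hx : ∀ x : IsFreeGroup.Generators (E₀.map p),
      ∃ a : E, p a = ((IsFreeGroup.of x : E₀.map p) : G) := by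
    intro x
    obtain ⟨a, _, ha⟩ := (IsFreeGroup.of x : E₀.map p).2
    exact ⟨a, ha⟩
  choose a ha using hx
  let σ : E₀.map p →* E := IsFreeGroup.lift a
  have hσ : p.comp σ = (E₀.map p).subtype := by
    apply IsFreeGroup.ext_hom
    intro x
    rw [MonoidHom.comp_apply, IsFreeGroup.lift_of, ha]
    rfl
  have hσ' : ∀ d : E₀.map p, p (σ d) = d := fun d => by
    rw [← MonoidHom.comp_apply, hσ]; rfl
  have hcen : ∀ z : E, p z = 1 → ∀ e, z * e = e * z := by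
    intro z hz e
    obtain ⟨c, rfl⟩ := (h4 z).1 hz
    exact h5 c e
  have hle : ⁅E₀, E₀⁆ ≤ σ.range := by
    rw [Subgroup.commutator_le]
    intro u hu v hv
    set u' : E₀.map p := ⟨p u, Subgroup.mem_map_of_mem p hu⟩
    set v' : E₀.map p := ⟨p v, Subgroup.mem_map_of_mem p hv⟩
    have hu' : p (u * (σ u')⁻¹) = 1 := by
      rw [map_mul, map_inv, hσ']; simp [u']
    have hv' : p (v * (σ v')⁻¹) = 1 := by
      rw [map_mul, map_inv, hσ']; simp [v']
    have e1 : u = u * (σ u')⁻¹ * σ u' := by simp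
    have e2 : v = v * (σ v')⁻¹ * σ v' := by simp
    rw [e1, e2, comm_central (hcen _ hu') (hcen _ hv')]
    exact ⟨⁅u', v'⁆, by simp⟩
  obtain ⟨d, hd⟩ := hle he₀
  have hd1 : d = 1 := by
    apply Subtype.ext
    rw [← hσ' d, hd, hpe]
    rfl
  rw [← hd, hd1, map_one]

end PF
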