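import Pool.Agent.PF.CohSurj
import Pool.Agent.PF.CohZero
import Pool.Agent.PF.ExtBuild
import Pool.Agent.PF.ExtCob
import Pool.Agent.PF.ExtInter
import Pool.Agent.PF.Core
import Pool.Agent.PF.LocFree

open CategoryTheory

namespace PF

theorem cob_main (G : Type) [Group G] [Group.FG G] (hG : IsParafree G) (n : ℕ)
    (f : G → G → QZ) (hf : IsCoc f) (hK : IsCob (fun a b : gam G n => f a b)) : IsCob f := by
  obtain ⟨E, _, p, s, i, h1, h2, h3, h4, h5, h6⟩ := exists_ext G f hf
  have hp : Function.Surjective p := fun g => ⟨s g, h1 g⟩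
  have hc : ∀ c : E, p c = 1 → ∀ e, c * e = e * c := by
    intro c hc e
    obtain ⟨a, rfl⟩ := (h4 c).1 hc
    exact h5 a e
  exact cob_of_inter G f E p s i h1 h2 h3 h4 h5 h6
    (core G hG n E p hp hc (inter_of_cob G f E p s i h1 h2 h3 h4 h5 h6 (gam G n) hK))

/-- For every finitely generated parafree group `G` and every subgroup `K` of `G` which contains some
`γ_n(G)` the map `H_2(K;ℤ) → H_2(G;ℤ)` is surjective; so `H_2(G;ℤ) = 0` if `H_2(K;ℤ) = 0` for
one such `K`, and if some such `K` is locally free. -/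
theorem main (G : Type) [Group G] [Group.FG G] (hG : IsParafree G) (K : Subgroup G) (n : ℕ)
    (hn : gam G n ≤ K) :
    Function.Surjective (cor2 G K) ∧
    (Limits.IsZero (groupHomology (Rep.trivial ℤ K ℤ) 2) →
      Limits.IsZero (groupHomology (Rep.trivial ℤ G ℤ) 2)) ∧
    ((∀ S : Subgroup K, S.FG → IsFreeGroup S) →
      Limits.IsZero (groupHomology (Rep.trivial ℤ G ℤ) 2)) := by
  have hs : Function.Surjective (cor2 G K) :=
    cor2_surjective G K (fun f hf hK => cob_main G hG n f hf (by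
      obtain ⟨b, hb⟩ := hK
      exact ⟨fun g => b ⟨g, hn g.2⟩, fun g h => hb ⟨g, hn g.2⟩ ⟨h, hn h.2⟩⟩))
  have hz : Limits.IsZero (groupHomology (Rep.trivial ℤ K ℤ) 2) →
      Limits.IsZero (groupHomology (Rep.trivial ℤ G ℤ) 2) := by
    intro h0
    have : Subsingleton (groupHomology (Rep.trivial ℤ K ℤ) 2) :=
      ModuleCat.subsingleton_of_isZero h0
    have : Subsingleton (groupHomology (Rep.trivial ℤ G ℤ) 2) := hs.subsingleton
    exact ModuleCat.isZero_of_subsingleton _
  exact ⟨hs, hz, fun hl => hz (isZero_H2 _ (fun f hf => cob_of_locFree _ hl f hf))⟩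

end PF
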