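import Pool.Agent.PF.Defs

open CategoryTheory groupHomology

namespace PF

variable (G : Type) [Group G] (K : Subgroup G)

/-- the identity of `ℤ`, as a morphism from the trivial representation of `K` to the restriction of
the trivial representation of `G` -/
noncomputable def idZ : Rep.trivial ℤ K ℤ ⟶ Rep.res K.subtype (Rep.trivial ℤ G ℤ) := 𝟙 _

/-- the corestriction map `H_2(K;ℤ) → H_2(G;ℤ)` -/
noncomputable def cor2 :
    groupHomology (Rep.trivial ℤ K ℤ) 2 ⟶ groupHomology (Rep.trivial ℤ G ℤ) 2 :=
  groupHomology.map K.subtype (idZ G K) 2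

end PF
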