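import Pool.Agent.PF.Coh1

open CategoryTheory groupHomology

namespace PF

variable (G : Type) [Group G] (K : Subgroup G)

private theorem cs_d21 (H : Type) [Group H] (g h : H) (a : ℤ) :
    (d₂₁ (Rep.trivial ℤ H ℤ)).hom (Finsupp.single (g, h) a)
      = Finsupp.single h a - Finsupp.single (g * h) a + Finsupp.single g a := by
  have := d₂₁_single (A := Rep.trivial ℤ H ℤ) (g, h) a
  simpa using this

private theorem cs_d32 (H : Type) [Group H] (g h j : H) (a : ℤ) :
    (d₃₂ (Rep.trivial ℤ H ℤ)).hom (Finsupp.single (g, h, j) a)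
      = Finsupp.single (h, j) a - Finsupp.single (g * h, j) a + Finsupp.single (g, h * j) a
        - Finsupp.single (g, h) a := by
  have := d₃₂_single (A := Rep.trivial ℤ H ℤ) (g, h, j) a
  simpa using this

private theorem cs_map (g h : K) (a : ℤ) :
    (chainsMap₂ K.subtype (idZ G K)).hom (Finsupp.single (g, h) a)
      = Finsupp.single ((g : G), (h : G)) a := by
  simp [idZ]
  rfl

/-- a character of `ℤ[H × H]` which kills the boundaries gives a cocycle -/
private theorem cs_coc (H : Type) [Group H] (ψ : (H × H →₀ ℤ) →+ QZ)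
    (hψ : ∀ w : H × H × H →₀ ℤ, ψ ((d₃₂ (Rep.trivial ℤ H ℤ)).hom w) = 0) :
    IsCoc (fun g h : H => ψ (Finsupp.single (g, h) 1)) := by
  intro g h j
  have h1 := hψ (Finsupp.single (g, h, j) 1)
  rw [cs_d32, map_sub, map_add, map_sub] at h1
  simp only
  rw [← sub_eq_zero, ← h1]
  abel

/-- a character of `ℤ[H × H]` whose cocycle is a coboundary factors through `d₂₁` -/
private theorem cs_fac (H : Type) [Group H] (ψ : (H × H →₀ ℤ) →+ QZ) (b : H → QZ)
    (hb : ∀ g h : H, ψ (Finsupp.single (g, h) 1) = b g + b h - b (g * h))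
    (z : H × H →₀ ℤ) (hz : (d₂₁ (Rep.trivial ℤ H ℤ)).hom z = 0) : ψ z = 0 := by
  let β : (H →₀ ℤ) →+ QZ := Finsupp.liftAddHom fun g => (zmultiplesHom QZ) (b g)
  have hβ : ∀ (g : H) (a : ℤ), β (Finsupp.single g a) = a • b g := fun g a => by
    simp [β]
  have key : ψ = β.comp ((d₂₁ (Rep.trivial ℤ H ℤ)).hom.toAddMonoidHom) := by
    refine Finsupp.addHom_ext fun x a => ?_
    obtain ⟨g, h⟩ := x
    have e1 : (Finsupp.single (g, h) a : H × H →₀ ℤ) = a • Finsupp.single (g, h) 1 := by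
      rw [Finsupp.smul_single, smul_eq_mul, mul_one]
    have e2 : (d₂₁ (Rep.trivial ℤ H ℤ)).hom.toAddMonoidHom (Finsupp.single (g, h) a)
        = Finsupp.single h a - Finsupp.single (g * h) a + Finsupp.single g a := cs_d21 H g h a
    rw [AddMonoidHom.comp_apply, e2, map_add, map_sub, hβ, hβ, hβ, e1, map_zsmul, hb, smul_sub,
      smul_add]
    abel
  rw [key, AddMonoidHom.comp_apply]
  have e3 : (d₂₁ (Rep.trivial ℤ H ℤ)).hom.toAddMonoidHom z = 0 := hz
  rw [e3, map_zero]

/-- a character of `ℤ[H × H]` which kills the cycles gives a coboundary -/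
private theorem cs_cob (H : Type) [Group H] (ψ : (H × H →₀ ℤ) →+ QZ)
    (hψ : ∀ z : H × H →₀ ℤ, (d₂₁ (Rep.trivial ℤ H ℤ)).hom z = 0 → ψ z = 0) :
    IsCob (fun g h : H => ψ (Finsupp.single (g, h) 1)) := by
  let D : (H × H →₀ ℤ) →ₗ[ℤ] (H →₀ ℤ) := (d₂₁ (Rep.trivial ℤ H ℤ)).hom
  let f : ((H × H →₀ ℤ) ⧸ LinearMap.ker D) →ₗ[ℤ] (H →₀ ℤ) := (LinearMap.ker D).liftQ D le_rfl
  have hf : Function.Injective f := by
    rw [← LinearMap.ker_eq_bot]
    exact Submodule.ker_liftQ_eq_bot _ _ _ le_rfl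
  let c : CharacterModule ((H × H →₀ ℤ) ⧸ LinearMap.ker D) :=
    ((LinearMap.ker D).liftQ ψ.toIntLinearMap (fun z hz => hψ z hz)).toAddMonoidHom
  obtain ⟨e, he⟩ := CharacterModule.dual_surjective_of_injective f hf c
  refine ⟨fun g => e (Finsupp.single g 1), fun g h => ?_⟩
  have h1 := DFunLike.congr_fun he ((LinearMap.ker D).mkQ (Finsupp.single (g, h) 1))
  have h2 : c ((LinearMap.ker D).mkQ (Finsupp.single (g, h) 1)) = ψ (Finsupp.single (g, h) 1) := rfl
  have h3 : CharacterModule.dual f e ((LinearMap.ker D).mkQ (Finsupp.single (g, h) 1))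
      = e (D (Finsupp.single (g, h) 1)) := rfl
  rw [h2, h3] at h1
  simp only
  rw [← h1, show D (Finsupp.single (g, h) 1) = _ from cs_d21 H g h 1, map_add, map_sub]
  abel

/-- PF-1. If every 2-cocycle of `G` with values in `ℚ/ℤ` whose restriction to `K` is a coboundary
is a coboundary, then `H_2(K;ℤ) → H_2(G;ℤ)` is surjective. -/
theorem cor2_surjective
    (h : ∀ f : G → G → QZ, IsCoc f → IsCob (fun a b : K => f a b) → IsCob f) :
    Function.Surjective (cor2 G K) := by
  intro y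
  induction y using H2_induction_on with
  | h z =>
    let ι : (K × K →₀ ℤ) →ₗ[ℤ] (G × G →₀ ℤ) := (chainsMap₂ K.subtype (idZ G K)).hom
    let W : Submodule ℤ (G × G →₀ ℤ) :=
      boundaries₂ (Rep.trivial ℤ G ℤ) ⊔ (cycles₂ (Rep.trivial ℤ K ℤ)).map ι
    by_cases hz : z.1 ∈ W
    · obtain ⟨b, hb, w, hw, hbw⟩ := Submodule.mem_sup.1 hz
      obtain ⟨x, hx, rfl⟩ := hw
      refine ⟨H2π (Rep.trivial ℤ K ℤ) ⟨x, hx⟩, ?_⟩
      have e1 : cor2 G K (H2π (Rep.trivial ℤ K ℤ) ⟨x, hx⟩)
          = H2π (Rep.trivial ℤ G ℤ) (mapCycles₂ K.subtype (idZ G K) ⟨x, hx⟩) := by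
        unfold cor2
        exact H2π_comp_map_apply _ _ _
      rw [e1, H2π_eq_iff, coe_mapCycles₂]
      have e2 : (chainsMap₂ K.subtype (idZ G K)) x - z.1 = - b := by
        rw [← hbw]
        change ι x - (b + ι x) = -b
        abel
      rw [e2]
      exact Submodule.neg_mem _ hb
    · exfalso
      have hne : W.mkQ z.1 ≠ 0 := by
        rw [Submodule.mkQ_apply, Ne, Submodule.Quotient.mk_eq_zero]
        exact hz
      obtain ⟨c, hc⟩ := CharacterModule.exists_character_apply_ne_zero_of_ne_zero hne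
      let ψ : (G × G →₀ ℤ) →+ QZ := AddMonoidHom.comp c W.mkQ.toAddMonoidHom
      have hW : ∀ w ∈ W, ψ w = 0 := by
        intro w hw
        change c (W.mkQ w) = 0
        rw [Submodule.mkQ_apply, (Submodule.Quotient.mk_eq_zero W).2 hw, map_zero]
      have h1 : IsCoc (fun g h : G => ψ (Finsupp.single (g, h) 1)) := by
        refine cs_coc G ψ fun w => hW _ (Submodule.mem_sup_left ?_)
        exact LinearMap.mem_range_self _ w
      have h2 : IsCob (fun a b : K => (fun g h : G => ψ (Finsupp.single (g, h) 1)) a b) := by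
        have h3 := cs_cob K (ψ.comp ι.toAddMonoidHom) fun w hw =>
          hW _ (Submodule.mem_sup_right (Submodule.mem_map_of_mem (f := ι) hw))
        obtain ⟨b, hb⟩ := h3
        refine ⟨b, fun g h => ?_⟩
        rw [← hb g h]
        change _ = ψ (ι (Finsupp.single (g, h) 1))
        rw [show ι (Finsupp.single (g, h) 1) = _ from cs_map G K g h 1]
      obtain ⟨b, hb⟩ := h _ h1 h2
      exact hc (cs_fac G ψ b hb z.1 z.2)

end PF
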