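import Pool.Agent.PF.Defs

open scoped commutatorElement

namespace PF

private theorem gc_mem (P : Type) [Group P] (n : ℕ) (a : P) (ha : a ∈ gam P n) (q : P) :
    ⁅a, q⁆ ∈ gam P (n + 1) :=
  Subgroup.commutator_mem_commutator ha (Subgroup.mem_top q)

private theorem gc_mem' (P : Type) [Group P] (n : ℕ) (a : P) (ha : a ∈ gam P n) (q : P) :
    ⁅q, a⁆ ∈ gam P (n + 1) := by
  rw [← commutatorElement_inv a q]
  exact inv_mem (gc_mem P n a ha q)

/-- PF-7. A subgroup that generates `P` modulo the commutator subgroup generates `P` modulo every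
term of the lower central series. -/
theorem gen_of_comm (P : Type) [Group P] (A : Subgroup P) (hA : A ⊔ commutator P = ⊤) (n : ℕ) :
    A ⊔ gam P n = ⊤ := by
  induction n with
  | zero =>
    have h0 : gam P 0 = ⊤ := rfl
    rw [h0, sup_top_eq]
  | succ n ih =>
    have hN : (gam P (n + 1)).Normal := inferInstance
    have hN0 : (gam P n).Normal := inferInstance
    -- every commutator lies in `A ⊔ gam (n+1)`
    have key : commutator P ≤ A ⊔ gam P (n + 1) := by
      rw [commutator_def, Subgroup.commutator_le]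
      intro p _ q _
      have hp : p ∈ A ⊔ gam P n := by rw [ih]; exact Subgroup.mem_top p
      have hq : q ∈ A ⊔ gam P n := by rw [ih]; exact Subgroup.mem_top q
      rw [Subgroup.mem_sup_of_normal_right] at hp hq
      obtain ⟨a, ha, z, hz, rfl⟩ := hp
      obtain ⟨b, hb, w, hw, rfl⟩ := hq
      have hNle : gam P (n + 1) ≤ A ⊔ gam P (n + 1) := le_sup_right
      -- conjugates of elements of gam (n+1)
      have hconj : ∀ g x : P, x ∈ gam P (n + 1) → g * x * g⁻¹ ∈ gam P (n + 1) :=
        fun g x hx => hN.conj_mem x hx g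
      have e1 : ⁅a * z, b * w⁆ =
          (a * ⁅z, b * w⁆ * a⁻¹) * (⁅a, b⁆ * (b * ⁅a, w⁆ * b⁻¹)) := by
        simp only [commutatorElement_def]; group
      rw [e1]
      have m1 : a * ⁅z, b * w⁆ * a⁻¹ ∈ A ⊔ gam P (n + 1) :=
        hNle (hconj a _ (gc_mem P n z hz _))
      have m2 : b * ⁅a, w⁆ * b⁻¹ ∈ A ⊔ gam P (n + 1) :=
        hNle (hconj b _ (gc_mem' P n w hw _))
      have m3 : ⁅a, b⁆ ∈ A ⊔ gam P (n + 1) := by
        have : A ≤ A ⊔ gam P (n + 1) := le_sup_left
        refine this ?_
        rw [commutatorElement_def]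
        exact A.mul_mem (A.mul_mem (A.mul_mem ha hb) (A.inv_mem ha)) (A.inv_mem hb)
      exact mul_mem m1 (mul_mem m3 m2)
    refine top_le_iff.1 ?_
    rw [← hA]
    exact sup_le le_sup_left key

/-- PF-8. Every term of the lower central series of a finitely generated group is generated by
finitely many elements modulo the next one. -/
theorem gam_gen (Q : Type) [Group Q] [Group.FG Q] (n : ℕ) :
    ∃ T : Set Q, T.Finite ∧ T ⊆ gam Q n ∧ gam Q n = Subgroup.closure T ⊔ gam Q (n + 1) := by
  obtain ⟨X, hX⟩ := (Group.fg_def.1 (inferInstance : Group.FG Q))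
  induction n with
  | zero =>
    refine ⟨(X : Set Q), X.finite_toSet, fun x _ => Subgroup.mem_top x, ?_⟩
    rw [hX, top_sup_eq]
    rfl
  | succ n ih =>
    obtain ⟨T, hT, hTn, hTe⟩ := ih
    obtain ⟨T', hT'⟩ : ∃ T' : Set Q, T' = (fun p : Q × Q => ⁅p.1, p.2⁆) '' (T ×ˢ (X : Set Q)) :=
      ⟨_, rfl⟩
    have hT'n : T' ⊆ gam Q (n + 1) := by
      rw [hT']
      rintro _ ⟨⟨t, x⟩, ⟨ht, _⟩, rfl⟩
      exact gc_mem Q n t (hTn ht) x
    refine ⟨T', ?_, hT'n, ?_⟩
    · rw [hT']
      exact (hT.prod X.finite_toSet).image _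
    obtain ⟨K, hK⟩ : ∃ K : Subgroup Q, K = Subgroup.closure T' ⊔ gam Q (n + 1 + 1) := ⟨_, rfl⟩
    rw [← hK]
    have hK2 : gam Q (n + 1 + 1) ≤ K := by rw [hK]; exact le_sup_right
    have hKT : T' ⊆ K := fun x hx => by
      rw [hK]
      exact (le_sup_left : Subgroup.closure T' ≤ _) (Subgroup.subset_closure hx)
    have hconj : ∀ g c : Q, c ∈ gam Q (n + 1) → c ∈ K → g * c * g⁻¹ ∈ K := by
      intro g c hc hcK
      have : g * c * g⁻¹ = ⁅g, c⁆ * c := by rw [commutatorElement_def]; group
      rw [this]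
      exact mul_mem (hK2 (gc_mem' Q (n + 1) c hc g)) hcK
    have stepA : ∀ t ∈ T, ∀ q : Q, ⁅t, q⁆ ∈ K := by
      intro t ht q
      have hq : q ∈ Subgroup.closure (X : Set Q) := by rw [hX]; exact Subgroup.mem_top q
      induction hq using Subgroup.closure_induction with
      | mem x hx =>
        refine hKT ?_
        rw [hT']
        exact ⟨(t, x), ⟨ht, hx⟩, rfl⟩
      | one => rw [commutatorElement_one_right]; exact one_mem K
      | mul x y _ _ hx hy =>
        have : ⁅t, x * y⁆ = ⁅t, x⁆ * (x * ⁅t, y⁆ * x⁻¹) := by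
          simp only [commutatorElement_def]; group
        rw [this]
        exact mul_mem hx (hconj x _ (gc_mem Q n t (hTn ht) y) hy)
      | inv x _ hx =>
        have : ⁅t, x⁻¹⁆ = x⁻¹ * ⁅t, x⁆⁻¹ * (x⁻¹)⁻¹ := by
          simp only [commutatorElement_def]; group
        rw [this]
        exact hconj x⁻¹ _ (inv_mem (gc_mem Q n t (hTn ht) x)) (inv_mem hx)
    have stepB : ∀ a ∈ gam Q n, ∀ q : Q, ⁅a, q⁆ ∈ K := by
      intro a ha q
      have ha' : a ∈ Subgroup.closure (T ∪ (gam Q (n + 1) : Set Q)) := by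
        rw [Subgroup.closure_union, Subgroup.closure_eq, ← hTe]
        exact ha
      have hsub : T ∪ (gam Q (n + 1) : Set Q) ⊆ gam Q n := by
        rintro x (hx | hx)
        · exact hTn hx
        · rw [hTe]
          exact (le_sup_right : gam Q (n + 1) ≤ _) hx
      have hcl : Subgroup.closure (T ∪ (gam Q (n + 1) : Set Q)) ≤ gam Q n :=
        (Subgroup.closure_le _).2 hsub
      clear ha
      induction ha' using Subgroup.closure_induction with
      | mem x hx =>
        rcases hx with hx | hx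
        · exact stepA x hx q
        · exact hK2 (gc_mem Q (n + 1) x hx q)
      | one => rw [commutatorElement_one_left]; exact one_mem K
      | mul x y hx0 hy0 hx hy =>
        have : ⁅x * y, q⁆ = (x * ⁅y, q⁆ * x⁻¹) * ⁅x, q⁆ := by
          simp only [commutatorElement_def]; group
        rw [this]
        exact mul_mem (hconj x _ (gc_mem Q n y (hcl hy0) q) hy) hx
      | inv x hx0 hx =>
        have : ⁅x⁻¹, q⁆ = x⁻¹ * ⁅x, q⁆⁻¹ * (x⁻¹)⁻¹ := by
          simp only [commutatorElement_def]; group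
        rw [this]
        exact hconj x⁻¹ _ (inv_mem (gc_mem Q n x (hcl hx0) q)) (inv_mem hx)
    refine le_antisymm ?_ ?_
    · have : gam Q (n + 1) = ⁅gam Q n, (⊤ : Subgroup Q)⁆ := rfl
      rw [this, Subgroup.commutator_le]
      intro a ha q _
      exact stepB a ha q
    · rw [hK]
      refine sup_le ((Subgroup.closure_le _).2 hT'n) ?_
      have : gam Q (n + 1 + 1) = ⁅gam Q (n + 1), (⊤ : Subgroup Q)⁆ := rfl
      rw [this]
      exact Subgroup.commutator_le_left _ _

end PF
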