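import Pool.Agent.PF.Hopf

namespace PF

/-- A homomorphism maps the lower central series into the lower central series. -/
private theorem map_gam_le {A B : Type} [Group A] [Group B] (f : A →* B) (n : ℕ) :
    (gam A n).map f ≤ gam B n := by
  rw [Subgroup.map_lowerCentralSeries]
  exact Subgroup.lowerCentralSeries_mono n le_top

private theorem gam_hom {A B : Type} [Group A] [Group B] (f : A →* B) (n : ℕ) {a : A}
    (ha : a ∈ gam A n) : f a ∈ gam B n :=
  map_gam_le f n (Subgroup.mem_map_of_mem f ha)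

/-- The free abelian quotient of a free group is finitely generated only if the rank is finite. -/
private theorem finite_of_fg (X : Type)
    (h : Group.FG (FreeGroup X ⧸ gam (FreeGroup X) 1)) : Finite X := by
  classical
  let f : FreeGroup X →* Multiplicative (X →₀ ℤ) :=
    FreeGroup.lift fun x => Multiplicative.ofAdd (Finsupp.single x 1)
  have hf : Function.Surjective f := by
    rw [← MonoidHom.range_eq_top, eq_top_iff]
    intro z _
    induction z using Multiplicative.rec with
    | ofAdd z =>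
      induction z using Finsupp.induction_linear with
      | zero => exact one_mem _
      | add a b ha hb =>
        exact mul_mem (ha (Subgroup.mem_top _)) (hb (Subgroup.mem_top _))
      | single x n =>
        refine ⟨FreeGroup.of x ^ n, ?_⟩
        rw [map_zpow]
        have : f (FreeGroup.of x) = Multiplicative.ofAdd (Finsupp.single x 1) :=
          FreeGroup.lift_apply_of
        rw [this, ← ofAdd_zsmul, Finsupp.smul_single]
        simp
  have hk : gam (FreeGroup X) 1 ≤ f.ker := by
    have h0 : gam (FreeGroup X) 1 = commutator (FreeGroup X) :=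
      Subgroup.top_lowerCentralSeries_one
    rw [h0]
    exact Abelianization.commutator_subset_ker f
  let g : FreeGroup X ⧸ gam (FreeGroup X) 1 →* Multiplicative (X →₀ ℤ) :=
    QuotientGroup.lift _ f hk
  have hg : Function.Surjective g := by
    intro z
    obtain ⟨y, hy⟩ := hf z
    exact ⟨QuotientGroup.mk y, hy⟩
  have h1 : Group.FG (Multiplicative (X →₀ ℤ)) := Group.fg_of_surjective hg
  have h2 : AddGroup.FG (X →₀ ℤ) := by
    exact AddGroup.fg_iff_mul_fg.2 h1
  have h3 : Module.Finite ℤ (X →₀ ℤ) := Module.Finite.iff_addGroup_fg.2 h2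
  exact Module.Finite.finite_basis (Finsupp.basisSingleOne (R := ℤ) (ι := X))

/-- PF-17. Finitely generated parafree groups are quotients of Levine systems `u_j = w_j(x,u)`. -/
theorem levine (G : Type) [Group G] [Group.FG G] (hG : IsParafree G) :
    ∃ (ι κ : Type) (_ : Finite ι) (_ : Finite κ) (π : FreeGroup (ι ⊕ κ) →* G)
      (w : κ → FreeGroup (ι ⊕ κ)), Function.Surjective π ∧
      (∀ j, w j ∈ commutator (FreeGroup (ι ⊕ κ))) ∧
      (∀ j, π (FreeGroup.of (Sum.inr j)) = π (w j)) ∧
      (∀ m : ℕ, π.ker ≤ Subgroup.normalClosure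
        (Set.range fun j => (FreeGroup.of (Sum.inr j) : FreeGroup (ι ⊕ κ))⁻¹ * w j) ⊔
        gam (FreeGroup (ι ⊕ κ)) m) := by
  classical
  obtain ⟨-, X, hX⟩ := hG
  let e := fun n => Classical.choice (hX n)
  have hfin : Finite X := by
    apply finite_of_fg
    exact Group.fg_of_surjective (f := (e 1).toMonoidHom) (e 1).surjective
  -- generators modulo the commutator subgroup
  have hx : ∀ i : X, ∃ x : G, e 1 (QuotientGroup.mk x) = QuotientGroup.mk (FreeGroup.of i) := by
    intro i
    obtain ⟨y, hy⟩ := (e 1).surjective (QuotientGroup.mk (FreeGroup.of i))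
    obtain ⟨x, rfl⟩ := QuotientGroup.mk_surjective y
    exact ⟨x, hy⟩
  choose x hx using hx
  let px : FreeGroup X →* G := FreeGroup.lift x
  have hpx : ∀ v : FreeGroup X, e 1 (QuotientGroup.mk (px v)) = QuotientGroup.mk v := by
    intro v
    have h1 : ((e 1).toMonoidHom.comp ((QuotientGroup.mk' (gam G 1)).comp px)) =
        QuotientGroup.mk' (gam (FreeGroup X) 1) := by
      apply FreeGroup.ext_hom
      intro i
      have h2 : px (FreeGroup.of i) = x i := FreeGroup.lift_apply_of
      show e 1 (QuotientGroup.mk (px (FreeGroup.of i))) = _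
      rw [h2, hx]
      rfl
    exact DFunLike.congr_fun h1 v
  obtain ⟨T, hT⟩ := Group.fg_def.1 (inferInstance : Group.FG G)
  have hv : ∀ g : G, ∃ v : FreeGroup X, (px v)⁻¹ * g ∈ gam G 1 := by
    intro g
    obtain ⟨v, hv⟩ := QuotientGroup.mk_surjective (e 1 (QuotientGroup.mk g))
    refine ⟨v, ?_⟩
    rw [← QuotientGroup.eq]
    apply (e 1).injective
    rw [hpx, hv]
  choose v hv using hv
  let u : {g : G // g ∈ T} → G := fun g => (px (v g.1))⁻¹ * g.1
  let π : FreeGroup (X ⊕ {g : G // g ∈ T}) →* G := FreeGroup.lift (Sum.elim x u)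
  let jx : FreeGroup X →* FreeGroup (X ⊕ {g : G // g ∈ T}) := FreeGroup.map Sum.inl
  have hπx : ∀ f : FreeGroup X, π (jx f) = px f := by
    intro f
    have h1 : π.comp jx = px := by
      apply FreeGroup.ext_hom
      intro i
      show π (jx (FreeGroup.of i)) = px (FreeGroup.of i)
      have h2 : jx (FreeGroup.of i) = FreeGroup.of (Sum.inl i) := FreeGroup.map.of
      have h3 : px (FreeGroup.of i) = x i := FreeGroup.lift_apply_of
      have h4 : π (FreeGroup.of (Sum.inl i)) = x i := FreeGroup.lift_apply_of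
      rw [h2, h3, h4]
    exact DFunLike.congr_fun h1 f
  have hπu : ∀ g, π (FreeGroup.of (Sum.inr g)) = u g := fun g => FreeGroup.lift_apply_of
  have hπ : Function.Surjective π := by
    rw [← MonoidHom.range_eq_top, eq_top_iff, ← hT, Subgroup.closure_le]
    intro g hg
    refine ⟨jx (v g) * FreeGroup.of (Sum.inr ⟨g, hg⟩), ?_⟩
    rw [map_mul, hπx, hπu]
    show px (v g) * ((px (v g))⁻¹ * g) = g
    group
  have hw : ∀ g : {g : G // g ∈ T}, ∃ w ∈ commutator (FreeGroup (X ⊕ {g : G // g ∈ T})), π w = u g := by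
    intro g
    have h1 : u g ∈ commutator G := by
      have h0 : gam G 1 = commutator G := Subgroup.top_lowerCentralSeries_one
      rw [← h0]
      exact hv g.1
    have h2 : (commutator (FreeGroup (X ⊕ {g : G // g ∈ T}))).map π = commutator G := by
      rw [commutator_def, Subgroup.map_commutator, ← MonoidHom.range_eq_map,
        MonoidHom.range_eq_top.2 hπ, ← commutator_def]
    rw [← h2] at h1
    obtain ⟨w, hw, hw'⟩ := h1
    exact ⟨w, hw, hw'⟩
  choose w hw hw' using hw
  refine ⟨X, {g : G // g ∈ T}, hfin, inferInstance, π, w, hπ, hw, fun j => by rw [hπu, hw'], ?_⟩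
  intro m
  set S : Subgroup (FreeGroup (X ⊕ {g : G // g ∈ T})) := Subgroup.normalClosure
    (Set.range fun j => (FreeGroup.of (Sum.inr j) : FreeGroup (X ⊕ {g : G // g ∈ T}))⁻¹ * w j)
    with hS
  have hSk : S ≤ π.ker := by
    apply Subgroup.normalClosure_le_normal
    rintro _ ⟨j, rfl⟩
    show π _ = 1
    rw [map_mul, map_inv, hπu, hw', inv_mul_cancel]
  -- decomposition modulo the lower central series
  have hgen : (jx.range ⊔ S) ⊔ gam (FreeGroup (X ⊕ {g : G // g ∈ T})) m = ⊤ := by
    apply gen_of_comm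
    rw [eq_top_iff, ← FreeGroup.closure_range_of, Subgroup.closure_le]
    rintro _ ⟨(i | j), rfl⟩
    · apply Subgroup.mem_sup_left
      apply Subgroup.mem_sup_left
      exact ⟨FreeGroup.of i, FreeGroup.map.of⟩
    · have h1 : (FreeGroup.of (Sum.inr j) : FreeGroup (X ⊕ {g : G // g ∈ T})) =
          w j * ((FreeGroup.of (Sum.inr j) : FreeGroup (X ⊕ {g : G // g ∈ T}))⁻¹ * w j)⁻¹ := by
        group
      rw [h1]
      refine mul_mem (Subgroup.mem_sup_right (hw j)) (inv_mem ?_)
      apply Subgroup.mem_sup_left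
      apply Subgroup.mem_sup_right
      exact Subgroup.subset_normalClosure ⟨j, rfl⟩
  have hdec : ∀ r : FreeGroup (X ⊕ {g : G // g ∈ T}), ∃ f : FreeGroup X, ∃ s ∈ S,
      ∃ c ∈ gam (FreeGroup (X ⊕ {g : G // g ∈ T})) m, r = jx f * s * c := by
    intro r
    have hr : r ∈ (jx.range ⊔ S) ⊔ gam (FreeGroup (X ⊕ {g : G // g ∈ T})) m := by
      rw [hgen]; exact Subgroup.mem_top r
    obtain ⟨a, ha, c, hc, rfl⟩ := Subgroup.mem_sup_of_normal_right.1 hr
    obtain ⟨b, ⟨f, rfl⟩, s, hs, rfl⟩ := Subgroup.mem_sup_of_normal_right.1 ha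
    exact ⟨f, s, hs, c, hc, rfl⟩
  -- the endomorphism of the nilpotent quotient
  let θ : FreeGroup X →* G ⧸ gam G m := (QuotientGroup.mk' (gam G m)).comp px
  have hθk : gam (FreeGroup X) m ≤ θ.ker := by
    intro f hf
    show (QuotientGroup.mk (px f) : G ⧸ gam G m) = 1
    rw [QuotientGroup.eq_one_iff]
    exact gam_hom px m hf
  let φ : (FreeGroup X ⧸ gam (FreeGroup X) m) →* (FreeGroup X ⧸ gam (FreeGroup X) m) :=
    (e m).toMonoidHom.comp (QuotientGroup.lift _ θ hθk)
  have hφ : Function.Surjective φ := by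
    intro z
    obtain ⟨y, rfl⟩ := (e m).surjective z
    obtain ⟨g, rfl⟩ := QuotientGroup.mk_surjective y
    obtain ⟨r, rfl⟩ := hπ g
    obtain ⟨f, s, hs, c, hc, rfl⟩ := hdec r
    refine ⟨QuotientGroup.mk f, ?_⟩
    show e m (QuotientGroup.mk (px f)) = e m (QuotientGroup.mk (π (jx f * s * c)))
    congr 1
    rw [QuotientGroup.eq, map_mul, map_mul, hπx, hSk hs, mul_one, inv_mul_cancel_left]
    exact gam_hom π m hc
  have hbot : gam (FreeGroup X ⧸ gam (FreeGroup X) m) m = ⊥ := by
    have h1 := Subgroup.map_lowerCentralSeries (⊤ : Subgroup (FreeGroup X))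
      (QuotientGroup.mk' (gam (FreeGroup X) m)) m
    rw [← MonoidHom.range_eq_map, QuotientGroup.range_mk'] at h1
    refine h1.symm.trans ?_
    rw [Subgroup.map_eq_bot_iff, QuotientGroup.ker_mk']
  have hinj : Function.Injective φ := hopf m _ hbot φ hφ
  intro r hr
  obtain ⟨f, s, hs, c, hc, rfl⟩ := hdec r
  have hr1 : π (jx f * s * c) = 1 := hr
  rw [map_mul, map_mul, hπx, hSk hs, mul_one] at hr1
  have h5 : px f ∈ gam G m := by
    rw [eq_inv_of_mul_eq_one_left hr1]
    exact inv_mem (gam_hom π m hc)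
  have h6 : (QuotientGroup.mk f : FreeGroup X ⧸ gam (FreeGroup X) m) = 1 := by
    apply hinj
    rw [map_one]
    show e m (QuotientGroup.mk (px f)) = 1
    rw [(QuotientGroup.eq_one_iff _).2 h5, map_one]
  have h7 : f ∈ gam (FreeGroup X) m := (QuotientGroup.eq_one_iff _).1 h6
  have h8 : jx f ∈ gam (FreeGroup (X ⊕ {g : G // g ∈ T})) m := gam_hom jx m h7
  exact mul_mem (mul_mem (Subgroup.mem_sup_right h8) (Subgroup.mem_sup_left hs))
    (Subgroup.mem_sup_right hc)

end PF
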