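import Pool.Agent.PF.Defs

open scoped commutatorElement

namespace PF

/-- the commutators of the elements of `T` with those of `X` -/
private def ngSet {H : Type} [Group H] (T X : Set H) : Set H :=
  (fun p : H × H => ⁅p.1, p.2⁆) '' (T ×ˢ X)

private theorem ng_step {H : Type} [Group H] (X : Set H) (hX : Subgroup.closure X = ⊤) (T : Set H) :
    ⁅Subgroup.normalClosure T, (⊤ : Subgroup H)⁆ ≤ Subgroup.normalClosure (ngSet T X) := by
  obtain ⟨M, hM⟩ : ∃ M : Subgroup H, M = Subgroup.normalClosure (ngSet T X) := ⟨_, rfl⟩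
  have hMn : M.Normal := by rw [hM]; infer_instance
  rw [← hM]
  have hmem : ∀ g h : H, ⁅g, h⁆ ∈ M ↔
      (QuotientGroup.mk' M g) * (QuotientGroup.mk' M h) =
        (QuotientGroup.mk' M h) * (QuotientGroup.mk' M g) := by
    intro g h
    rw [← commutatorElement_eq_one_iff_mul_comm, ← map_commutatorElement, ← MonoidHom.mem_ker,
      QuotientGroup.ker_mk']
  have hT : ∀ t ∈ T, ∀ h : H, (QuotientGroup.mk' M t) * (QuotientGroup.mk' M h) =
        (QuotientGroup.mk' M h) * (QuotientGroup.mk' M t) := by
    intro t ht h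
    have h1 : X ⊆ ((Subgroup.centralizer {QuotientGroup.mk' M t}).comap (QuotientGroup.mk' M) :
        Subgroup H) := by
      intro x hx
      rw [SetLike.mem_coe, Subgroup.mem_comap, Subgroup.mem_centralizer_iff]
      intro y hy
      rw [Set.mem_singleton_iff] at hy
      rw [hy]
      refine (hmem t x).1 ?_
      rw [hM]
      exact Subgroup.subset_normalClosure ⟨(t, x), ⟨ht, hx⟩, rfl⟩
    have h2 : (⊤ : Subgroup H) ≤
        (Subgroup.centralizer {QuotientGroup.mk' M t}).comap (QuotientGroup.mk' M) := by
      rw [← hX, Subgroup.closure_le]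
      exact h1
    have h3 := h2 (Subgroup.mem_top h)
    rw [Subgroup.mem_comap, Subgroup.mem_centralizer_iff] at h3
    exact h3 _ rfl
  have hN : Subgroup.normalClosure T ≤ (Subgroup.center (H ⧸ M)).comap (QuotientGroup.mk' M) := by
    refine Subgroup.normalClosure_le_normal ?_
    intro t ht
    rw [SetLike.mem_coe, Subgroup.mem_comap, Subgroup.mem_center_iff]
    intro y
    obtain ⟨h, rfl⟩ := QuotientGroup.mk'_surjective M y
    exact (hT t ht h).symm
  rw [Subgroup.commutator_le]
  intro g hg h _
  rw [hmem]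
  have h4 := hN hg
  rw [Subgroup.mem_comap, Subgroup.mem_center_iff] at h4
  exact (h4 _).symm

private theorem ng_step' {H : Type} [Group H] (X : Set H) (T : Set H) :
    Subgroup.normalClosure (ngSet T X) ≤ ⁅Subgroup.normalClosure T, (⊤ : Subgroup H)⁆ := by
  refine Subgroup.normalClosure_le_normal ?_
  rintro _ ⟨⟨t, x⟩, ⟨ht, _⟩, rfl⟩
  exact Subgroup.commutator_mem_commutator (Subgroup.subset_normalClosure ht) (Subgroup.mem_top x)

/-- PF-9. Every term of the lower central series of a finitely generated group is the normal closure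
of a finite set (the iterated commutators of generators). -/
theorem gam_normal_gen (H : Type) [Group H] [Group.FG H] (n : ℕ) :
    ∃ T : Set H, T.Finite ∧ gam H n = Subgroup.normalClosure T := by
  obtain ⟨X, hX⟩ := (Group.fg_def.1 (inferInstance : Group.FG H))
  induction n with
  | zero =>
    refine ⟨(X : Set H), X.finite_toSet, ?_⟩
    refine le_antisymm ?_ le_top
    change (⊤ : Subgroup H) ≤ _
    rw [← hX]
    exact Subgroup.closure_le_normalClosure
  | succ n ih =>
    obtain ⟨T, hT, hTn⟩ := ih
    refine ⟨ngSet T (X : Set H), (hT.prod X.finite_toSet).image _, ?_⟩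
    have h1 : gam H (n + 1) = ⁅gam H n, (⊤ : Subgroup H)⁆ := rfl
    rw [h1, hTn]
    exact le_antisymm (ng_step _ hX T) (ng_step' _ T)

end PF
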