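import Pool.Agent.PF.Defs

namespace PF

private theorem skew_conj_t {S : Type} [Ring S] (R : Subring S) (t u : S)
    (h1 : ∀ r ∈ R, t * r * u ∈ R) (n : ℕ) : ∀ r ∈ R, t ^ n * r * u ^ n ∈ R := by
  induction n with
  | zero => intro r hr; simpa using hr
  | succ n ih =>
    intro r hr
    have h := ih _ (h1 r hr)
    have e : t ^ (n + 1) * r * u ^ (n + 1) = t ^ n * (t * r * u) * u ^ n := by
      rw [pow_succ t n, pow_succ' u n]
      simp only [mul_assoc]
    rw [e]
    exact h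

private theorem skew_pow_cancel {S : Type} [Ring S] (t u : S) (htu : t * u = 1) (n : ℕ) :
    t ^ n * u ^ n = 1 := by
  induction n with
  | zero => simp
  | succ n ih =>
    rw [pow_succ t n, pow_succ' u n]
    calc t ^ n * t * (u * u ^ n) = t ^ n * (t * u) * u ^ n := by simp only [mul_assoc]
      _ = 1 := by rw [htu, mul_one, ih]

/-- the sums of length `n` -/
private def skewM {S : Type} [Ring S] (R : Subring S) (t : S) (n : ℕ) : AddSubgroup S where
  carrier := {s | ∃ c : ℕ → S, (∀ i, c i ∈ R) ∧ s = ∑ i ∈ Finset.range n, t ^ i * c i}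
  zero_mem' := ⟨fun _ => 0, fun _ => R.zero_mem, by simp⟩
  add_mem' := by
    rintro a b ⟨c, hc, rfl⟩ ⟨d, hd, rfl⟩
    refine ⟨fun i => c i + d i, fun i => R.add_mem (hc i) (hd i), ?_⟩
    rw [← Finset.sum_add_distrib]
    exact Finset.sum_congr rfl fun i _ => by rw [mul_add]
  neg_mem' := by
    rintro a ⟨c, hc, rfl⟩
    refine ⟨fun i => - c i, fun i => R.neg_mem (hc i), ?_⟩
    rw [← Finset.sum_neg_distrib]
    exact Finset.sum_congr rfl fun i _ => by rw [mul_neg]

private theorem skewM_mem {S : Type} [Ring S] {R : Subring S} {t : S} {n : ℕ} {s : S} :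
    s ∈ skewM R t n ↔
      ∃ c : ℕ → S, (∀ i, c i ∈ R) ∧ s = ∑ i ∈ Finset.range n, t ^ i * c i := Iff.rfl

private theorem skewM_mul {S : Type} [Ring S] (R : Subring S) (t u : S)
    (htu : t * u = 1) (h2 : ∀ r ∈ R, u * r * t ∈ R) (n : ℕ) (r : S) (hr : r ∈ R)
    (m : S) (hm : m ∈ skewM R t n) : r * m ∈ skewM R t n := by
  obtain ⟨c, hc, rfl⟩ := skewM_mem.1 hm
  refine skewM_mem.2 ⟨fun i => u ^ i * r * t ^ i * c i, fun i =>
    R.mul_mem (skew_conj_t R u t h2 i r hr) (hc i), ?_⟩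
  rw [Finset.mul_sum]
  refine Finset.sum_congr rfl fun i _ => ?_
  calc r * (t ^ i * c i) = (t ^ i * u ^ i) * (r * (t ^ i * c i)) := by
        rw [skew_pow_cancel t u htu i, one_mul]
    _ = t ^ i * (u ^ i * r * t ^ i * c i) := by simp only [mul_assoc]

private theorem skewM_t {S : Type} [Ring S] (R : Subring S) (t : S) (n : ℕ)
    (m : S) (hm : m ∈ skewM R t n) : t * m ∈ skewM R t (n + 1) := by
  obtain ⟨c, hc, rfl⟩ := skewM_mem.1 hm
  refine skewM_mem.2 ⟨fun i => if i = 0 then 0 else c (i - 1), fun i => ?_, ?_⟩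
  · by_cases h : i = 0
    · simp only [h, if_true]; exact R.zero_mem
    · simp only [h, if_false]; exact hc _
  · rw [Finset.sum_range_succ', Finset.mul_sum]
    simp only [if_true, mul_zero, add_zero]
    refine Finset.sum_congr rfl fun i _ => ?_
    rw [if_neg (Nat.succ_ne_zero i), Nat.add_sub_cancel, pow_succ', mul_assoc]

private theorem skewM_succ {S : Type} [Ring S] (R : Subring S) (t : S) (n : ℕ)
    (s : S) (hs : s ∈ skewM R t (n + 1)) : ∃ r ∈ R, ∃ m ∈ skewM R t n, s = t ^ n * r + m := by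
  obtain ⟨c, hc, rfl⟩ := skewM_mem.1 hs
  refine ⟨c n, hc n, ∑ i ∈ Finset.range n, t ^ i * c i, skewM_mem.2 ⟨c, hc, rfl⟩, ?_⟩
  rw [Finset.sum_range_succ, add_comm]

/-- the left ideal of leading coefficients -/
private def skewL {S : Type} [Ring S] (R : Subring S) (t u : S)
    (htu : t * u = 1) (hut : u * t = 1)
    (h1 : ∀ r ∈ R, t * r * u ∈ R) (h2 : ∀ r ∈ R, u * r * t ∈ R)
    (J : Ideal S) (n : ℕ) : Ideal R where
  carrier := {r | ∃ m ∈ skewM R t n, t ^ n * (r : S) + m ∈ J}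
  zero_mem' := ⟨0, AddSubgroup.zero_mem _, by simp⟩
  add_mem' := by
    rintro a b ⟨m, hm, ha⟩ ⟨m', hm', hb⟩
    refine ⟨m + m', AddSubgroup.add_mem _ hm hm', ?_⟩
    have e : t ^ n * ((a + b : R) : S) + (m + m')
        = (t ^ n * (a : S) + m) + (t ^ n * (b : S) + m') := by
      rw [Subring.coe_add, mul_add]; abel
    rw [e]
    exact J.add_mem ha hb
  smul_mem' := by
    rintro r' r ⟨m, hm, hr⟩
    refine ⟨t ^ n * (r' : S) * u ^ n * m,
      skewM_mul R t u htu h2 n _ (skew_conj_t R t u h1 n _ r'.2) m hm, ?_⟩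
    have h := J.mul_mem_left (t ^ n * (r' : S) * u ^ n) hr
    have e : t ^ n * (r' : S) * u ^ n * (t ^ n * (r : S) + m)
        = t ^ n * ((r' • r : R) : S) + t ^ n * (r' : S) * u ^ n * m := by
      rw [mul_add]
      congr 1
      calc t ^ n * (r' : S) * u ^ n * (t ^ n * (r : S))
          = t ^ n * (r' : S) * ((u ^ n * t ^ n) * (r : S)) := by simp only [mul_assoc]
        _ = t ^ n * ((r' • r : R) : S) := by
            rw [skew_pow_cancel u t hut n, one_mul, smul_eq_mul, Subring.coe_mul, mul_assoc]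
    rw [e] at h
    exact h

/-- PF-12. Skew Hilbert basis theorem (left noetherian). -/
theorem skew_noeth {S : Type} [Ring S] (R : Subring S) (hR : IsNoetherianRing R) (t u : S)
    (htu : t * u = 1) (hut : u * t = 1)
    (h1 : ∀ r ∈ R, t * r * u ∈ R) (h2 : ∀ r ∈ R, u * r * t ∈ R)
    (hgen : ∀ s : S, ∃ (n k : ℕ) (c : ℕ → S), (∀ i, c i ∈ R) ∧
      t ^ n * s = ∑ i ∈ Finset.range k, t ^ i * c i) :
    IsNoetherianRing S := by
  set L : Ideal S → ℕ → Ideal R := fun J n => skewL R t u htu hut h1 h2 J n with hL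
  have Lmem : ∀ (J : Ideal S) (n : ℕ) (r : R),
      r ∈ L J n ↔ ∃ m ∈ skewM R t n, t ^ n * (r : S) + m ∈ J := fun J n r => Iff.rfl
  have Lmono : ∀ (J J' : Ideal S), J ≤ J' → ∀ n, L J n ≤ L J' n := by
    intro J J' h n r hr
    obtain ⟨m, hm, hr⟩ := (Lmem J n r).1 hr
    exact (Lmem J' n r).2 ⟨m, hm, h hr⟩
  have Lsucc : ∀ (J : Ideal S) (n : ℕ), L J n ≤ L J (n + 1) := by
    intro J n r hr
    obtain ⟨m, hm, hr⟩ := (Lmem J n r).1 hr
    refine (Lmem J (n + 1) r).2 ⟨t * m, skewM_t R t n m hm, ?_⟩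
    have h := J.mul_mem_left t hr
    rw [mul_add, ← mul_assoc, ← pow_succ'] at h
    exact h
  have Lmono2 : ∀ (J : Ideal S), Monotone (L J) := fun J => monotone_nat_of_le_succ (Lsucc J)
  have key : ∀ (J J' : Ideal S), J ≤ J' → (∀ n, L J' n ≤ L J n) → J' ≤ J := by
    intro J J' hJ hLL
    have aux : ∀ n, ∀ x ∈ J', x ∈ skewM R t n → x ∈ J := by
      intro n
      induction n with
      | zero =>
        intro x _ hx
        obtain ⟨c, _, rfl⟩ := skewM_mem.1 hx
        simp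
      | succ n ih =>
        intro x hxJ hx
        obtain ⟨r, hr, m, hm, rfl⟩ := skewM_succ R t n x hx
        have h3 : (⟨r, hr⟩ : R) ∈ L J' n := (Lmem J' n _).2 ⟨m, hm, hxJ⟩
        obtain ⟨m', hm', h4⟩ := (Lmem J n _).1 (hLL n h3)
        have h5 : t ^ n * r + m' ∈ J := h4
        have h6 : m - m' ∈ J' := by
          have := J'.sub_mem hxJ (hJ h5)
          have e : t ^ n * r + m - (t ^ n * r + m') = m - m' := by abel
          rwa [e] at this
        have h7 := ih _ h6 (AddSubgroup.sub_mem _ hm hm')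
        have e : t ^ n * r + m = (t ^ n * r + m') + (m - m') := by abel
        rw [e]
        exact J.add_mem h5 h7
    intro s hs
    obtain ⟨n, k, c, hc, h⟩ := hgen s
    have h3 : t ^ n * s ∈ J := by
      refine aux k _ (J'.mul_mem_left _ hs) ?_
      rw [h]
      exact skewM_mem.2 ⟨c, hc, rfl⟩
    have h4 := J.mul_mem_left (u ^ n) h3
    rw [← mul_assoc, skew_pow_cancel u t hut n, one_mul] at h4
    exact h4
  have stab : ∀ f : ℕ →o Ideal R, ∃ n, ∀ m, n ≤ m → f n = f m :=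
    (monotone_stabilizes_iff_noetherian (R := R) (M := R)).2 hR
  refine (monotone_stabilizes_iff_noetherian (R := S) (M := S)).1 ?_
  intro J
  obtain ⟨m0, hm0⟩ := stab ⟨fun m => L (J m) m, fun a b hab =>
    (Lmono _ _ (J.monotone hab) a).trans (Lmono2 _ hab)⟩
  have hE : ∀ n, ∃ e, ∀ m, e ≤ m → L (J e) n = L (J m) n := fun n =>
    stab ⟨fun m => L (J m) n, fun a b hab => Lmono _ _ (J.monotone hab) n⟩
  choose e he using hE
  have hm0' : ∀ m, m0 ≤ m → L (J m0) m0 = L (J m) m := hm0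
  set N : ℕ := max m0 ((Finset.range m0).sup e) with hN
  have hNm0 : m0 ≤ N := le_max_left _ _
  have hNe : ∀ n < m0, e n ≤ N := fun n hn =>
    (Finset.le_sup (f := e) (Finset.mem_range.2 hn)).trans (le_max_right _ _)
  refine ⟨N, fun m hm => le_antisymm (J.monotone hm) (key _ _ (J.monotone hm) ?_)⟩
  intro n
  rcases lt_or_ge n m0 with hn | hn
  · rw [← he n m ((hNe n hn).trans hm)]
    exact Lmono _ _ (J.monotone (hNe n hn)) n
  · calc L (J m) n ≤ L (J (max n m)) (max n m) :=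
          (Lmono _ _ (J.monotone (le_max_right _ _)) n).trans (Lmono2 _ (le_max_left _ _))
      _ = L (J m0) m0 := (hm0' _ (hn.trans (le_max_left _ _))).symm
      _ ≤ L (J N) n := (Lmono _ _ (J.monotone hNm0) m0).trans (Lmono2 _ hn)

end PF
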